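import Pool.Agent.CopelandErdos.SieveBound

set_option autoImplicit false

open Finset

namespace Pool.Agent.CopelandErdos

lemma two_lt_log_ten : (2 : ℝ) < Real.log 10 := by
  rw [Real.lt_log_iff_exp_lt (by norm_num)]
  have h1 : Real.exp 2 = Real.exp 1 * Real.exp 1 := by
    rw [← Real.exp_add]; norm_num
  rw [h1]
  have h2 := Real.exp_one_lt_d9
  have h3 := Real.exp_pos 1
  nlinarith

/-- Brun-Titchmarsh type bound for progressions with difference a power of ten. -/
lemma primes_in_progression (a t u : ℕ) (hu : 1 ≤ u) :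
    (((range (10 ^ u)).filter (fun k => (a + 10 ^ t * k).Prime ∧ 10 ^ u < a + 10 ^ t * k)).card : ℝ)
      ≤ 30 * 10 ^ u / u := by
  have hu0 : (0 : ℝ) < u := by exact_mod_cast hu
  rcases Nat.lt_or_ge 30 u with h30 | h30
  · set v := u / 8 with hv
    have hv3 : 3 ≤ v := by omega
    have hv8 : 8 * v ≤ u := by omega
    have hu8 : u ≤ 8 * v + 7 := by omega
    have hR : 1 ≤ 10 ^ v := Nat.one_le_pow _ _ (by norm_num)
    have hcop : ∀ d ∈ sieveSet (10 ^ v), Nat.Coprime (10 ^ t) d := by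
      intro d hd
      exact Nat.Coprime.pow_left t (mem_sieveSet.1 hd).2.2.symm
    have hs := sieve_upper (K := 10 ^ u) (a := a) hR hcop
    have hsub : ((range (10 ^ u)).filter
        (fun k => (a + 10 ^ t * k).Prime ∧ 10 ^ u < a + 10 ^ t * k)).card ≤
        ((range (10 ^ u)).filter
          (fun k => ∀ d ∈ sieveSet (10 ^ v), d ∣ a + 10 ^ t * k → d = 1)).card := by
      apply Finset.card_le_card
      intro k hk
      rw [Finset.mem_filter] at hk ⊢
      refine ⟨hk.1, ?_⟩
      intro d hd hdvd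
      rcases (Nat.dvd_prime hk.2.1).1 hdvd with h1 | h1
      · exact h1
      · exfalso
        have h2 : d ≤ 10 ^ v := (mem_sieveSet.1 hd).1.2
        have h3 : 10 ^ v ≤ 10 ^ u := Nat.pow_le_pow_right (by norm_num) (by omega)
        have h4 := hk.2.2
        omega
    have hG := sieveG_lower hR
    have hGpos := sieveG_pos hR
    have hlog : Real.log ((10 ^ v : ℕ) : ℝ) = v * Real.log 10 := by
      push_cast
      rw [Real.log_pow]
    rw [hlog] at hG
    have h2log := two_lt_log_ten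
    have hvR : (3 : ℝ) ≤ v := by exact_mod_cast hv3
    have hG' : (v : ℝ) / 2 ≤ sieveG (10 ^ v) := by
      have : (v : ℝ) * 2 ≤ v * Real.log 10 := by
        apply mul_le_mul_of_nonneg_left h2log.le; positivity
      linarith
    have hmain : ((10 ^ u : ℕ) : ℝ) / sieveG (10 ^ v) ≤ 21 * 10 ^ u / u := by
      push_cast
      rw [div_le_div_iff₀ hGpos hu0]
      have h5 : (u : ℝ) ≤ 8 * v + 7 := by exact_mod_cast hu8
      have h6 : (u : ℝ) ≤ 21 * sieveG (10 ^ v) := by linarith
      have h7 : (0 : ℝ) ≤ 10 ^ u := by positivity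
      nlinarith [mul_le_mul_of_nonneg_left h6 h7]
    have herr : (((10 ^ v : ℕ) : ℝ)) ^ 4 ≤ 9 * 10 ^ u / u := by
      push_cast
      rw [le_div_iff₀ hu0]
      have h8 : (u : ℝ) ≤ 9 * 10 ^ (4 * v) := by
        have h9 : u ≤ 9 * 10 ^ (4 * v) := by
          have h10 : v + 1 ≤ 10 ^ v := Nat.lt_pow_self (by norm_num)
          have h11 : 10 ^ v ≤ 10 ^ (4 * v) := Nat.pow_le_pow_right (by norm_num) (by omega)
          omega
        exact_mod_cast h9
      have h12 : (10 : ℝ) ^ (4 * v) * 10 ^ (4 * v) ≤ 10 ^ u := by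
        rw [← pow_add]
        apply pow_le_pow_right₀ (by norm_num)
        omega
      have h13 : (0 : ℝ) < 10 ^ (4 * v) := by positivity
      calc ((10 : ℝ) ^ v) ^ 4 * u = 10 ^ (4 * v) * u := by rw [← pow_mul, mul_comm v 4]
        _ ≤ 10 ^ (4 * v) * (9 * 10 ^ (4 * v)) := by gcongr
        _ = 9 * (10 ^ (4 * v) * 10 ^ (4 * v)) := by ring
        _ ≤ 9 * 10 ^ u := by gcongr
    calc (((range (10 ^ u)).filter
        (fun k => (a + 10 ^ t * k).Prime ∧ 10 ^ u < a + 10 ^ t * k)).card : ℝ)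
        ≤ (((range (10 ^ u)).filter
          (fun k => ∀ d ∈ sieveSet (10 ^ v), d ∣ a + 10 ^ t * k → d = 1)).card : ℝ) := by
          exact_mod_cast hsub
      _ ≤ ((10 ^ u : ℕ) : ℝ) / sieveG (10 ^ v) + (((10 ^ v : ℕ) : ℝ)) ^ 4 := hs
      _ ≤ 21 * 10 ^ u / u + 9 * 10 ^ u / u := add_le_add hmain herr
      _ = 30 * 10 ^ u / u := by ring
  · have h1 : (((range (10 ^ u)).filter
        (fun k => (a + 10 ^ t * k).Prime ∧ 10 ^ u < a + 10 ^ t * k)).card : ℝ) ≤ 10 ^ u := by
      have := Finset.card_filter_le (range (10 ^ u))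
        (fun k => (a + 10 ^ t * k).Prime ∧ 10 ^ u < a + 10 ^ t * k)
      rw [Finset.card_range] at this
      exact_mod_cast this
    refine h1.trans ?_
    rw [le_div_iff₀ hu0]
    have h2 : (u : ℝ) ≤ 30 := by exact_mod_cast h30
    have h3 : (0 : ℝ) ≤ 10 ^ u := by positivity
    nlinarith [mul_le_mul_of_nonneg_left h2 h3]

end Pool.Agent.CopelandErdos
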