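import Mathlib

set_option autoImplicit false

open Finset

namespace Pool.Agent.CopelandErdos

lemma two_lt_log_ten' : (2.3 : ℝ) < Real.log 10 ∧ Real.log 10 < (2.4 : ℝ) := by
  constructor
  · rw [Real.lt_log_iff_exp_lt (by norm_num)]
    have h1 : Real.exp 2.3 = Real.exp 1 * Real.exp 1 * Real.exp (3 / 10) := by
      rw [← Real.exp_add, ← Real.exp_add]; norm_num
    have h2 := Real.exp_one_lt_d9
    have h3 := Real.exp_pos 1
    have h4 : Real.exp (3 / 10) ≤ 1.3505 := by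
      have := Real.exp_bound' (x := 3 / 10) (by norm_num) (by norm_num) (n := 4) (by norm_num)
      norm_num [Finset.sum_range_succ, Nat.factorial] at this
      linarith
    rw [h1]
    have h8 : Real.exp 1 * Real.exp 1 ≤ 7.38906 := by nlinarith
    have h9 := Real.exp_pos (3 / 10)
    nlinarith
  · rw [Real.log_lt_iff_lt_exp (by norm_num)]
    have h1 : Real.exp 2.4 = Real.exp 1 * Real.exp 1 * Real.exp 0.4 := by
      rw [← Real.exp_add, ← Real.exp_add]; norm_num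
    have h2 := Real.exp_one_gt_d9
    have h4 : (1.4 : ℝ) ≤ Real.exp 0.4 := by
      have := Real.add_one_le_exp (0.4 : ℝ)
      linarith
    rw [h1]
    have h8 : (7.389 : ℝ) ≤ Real.exp 1 * Real.exp 1 := by nlinarith
    nlinarith

lemma card_primes_Ico {a b : ℕ} (hab : a ≤ b) :
    Nat.primeCounting' a + ((Ico a b).filter Nat.Prime).card = Nat.primeCounting' b := by
  unfold Nat.primeCounting'
  rw [Nat.count_eq_card_filter_range, Nat.count_eq_card_filter_range, ← Finset.card_union_of_disjoint]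
  · congr 1
    ext x
    simp only [Finset.mem_union, Finset.mem_filter, Finset.mem_range, Finset.mem_Ico]
    constructor
    · rintro (⟨h1, h2⟩ | ⟨h1, h2⟩)
      · exact ⟨by omega, h2⟩
      · exact ⟨by omega, h2⟩
    · rintro ⟨h1, h2⟩
      by_cases h3 : x < a
      · exact Or.inl ⟨h3, h2⟩
      · exact Or.inr ⟨⟨by omega, h1⟩, h2⟩
  · rw [Finset.disjoint_left]
    intro x
    simp only [Finset.mem_filter, Finset.mem_range, Finset.mem_Ico]
    rintro ⟨h1, _⟩ ⟨h2, _⟩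
    omega

lemma pow_key1 (n : ℕ) (hn : 10 ≤ n) : ((n + 1) * 100) ^ 2 ≤ 10 ^ n := by
  induction n, hn using Nat.le_induction with
  | base => norm_num
  | succ k hk ih =>
    rw [pow_succ 10 k]
    nlinarith

lemma pow_key2 (n : ℕ) (hn : 10 ≤ n) : (n + 1) * 30 ≤ 10 ^ n := by
  induction n, hn using Nat.le_induction with
  | base => norm_num
  | succ k hk ih =>
    rw [pow_succ 10 k]
    linarith

/-- Chebyshev lower bound for the number of primes with `ℓ + 1` digits. -/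
lemma card_primes_digits {ℓ : ℕ} (hℓ : 10 ≤ ℓ) :
    (10 : ℝ) ^ (ℓ + 1) / (10 * (ℓ + 1)) ≤
      (((Ico (10 ^ ℓ) (10 ^ (ℓ + 1))).filter Nat.Prime).card : ℝ) := by
  have h1 := card_primes_Ico (a := 10 ^ ℓ) (b := 10 ^ (ℓ + 1))
    (Nat.pow_le_pow_right (by norm_num) (by omega))
  have h2 : Nat.primeCounting (10 ^ (ℓ + 1)) ≤ Nat.primeCounting' (10 ^ (ℓ + 1)) + 1 := by
    unfold Nat.primeCounting Nat.primeCounting'
    rw [Nat.count_succ]
    split_ifs <;> omega
  have h3 : Nat.primeCounting' (10 ^ ℓ) ≤ Nat.primeCounting (10 ^ ℓ) := by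
    unfold Nat.primeCounting
    exact Nat.monotone_primeCounting' (Nat.le_succ _)
  have h4 := Chebyshev.pi_ge (10 ^ (ℓ + 1))
  have h5 := Chebyshev.pi_le_log4_mul_div (x := (10 : ℝ) ^ ℓ) (one_lt_pow₀ (by norm_num) (by omega))
  have h6 : ⌊(10 : ℝ) ^ ℓ⌋₊ = 10 ^ ℓ := by
    have : ((10 ^ ℓ : ℕ) : ℝ) = (10 : ℝ) ^ ℓ := by push_cast; rfl
    rw [← this, Nat.floor_natCast]
  rw [h6] at h5
  obtain ⟨hl1, hl2⟩ := two_lt_log_ten'
  have hlog2 := Real.log_two_gt_d9
  have hlog2' := Real.log_two_lt_d9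
  have hlog4 : Real.log 4 = 2 * Real.log 2 := by
    rw [show (4 : ℝ) = 2 ^ 2 by norm_num, Real.log_pow]; norm_num
  have hℓR : (10 : ℝ) ≤ ℓ := by exact_mod_cast hℓ
  -- rewrite h4
  push_cast at h4
  rw [Real.log_pow] at h4
  push_cast at h4
  set lam := Real.log 10 with hlam
  set X : ℝ := (10 : ℝ) ^ ℓ with hX
  have hXpos : 0 < X := by positivity
  have hXX : (10 : ℝ) ^ (ℓ + 1) = 10 * X := by rw [pow_succ]; ring
  rw [hXX] at h4 ⊢
  -- log (10 X + 1) ≤ 2 (ℓ + 1) lam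
  have hlogX : Real.log (10 * X + 1) ≤ 2 * ((ℓ + 1) * lam) := by
    have : Real.log (10 * X + 1) ≤ Real.log ((10 * X) ^ 2) := by
      apply Real.log_le_log (by positivity)
      have : 1 ≤ X := one_le_pow₀ (by norm_num)
      nlinarith
    refine this.trans ?_
    rw [Real.log_pow, ← hXX, Real.log_pow]
    push_cast
    exact le_refl _
  have h7 : 10 * X * Real.log 2 / ((ℓ + 1) * lam) - 2 ≤ (Nat.primeCounting (10 ^ (ℓ + 1)) : ℝ) := by
    refine le_trans ?_ h4
    rw [sub_div]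
    have h8 : Real.log (10 * X + 1) / ((ℓ + 1) * lam) ≤ 2 := by
      rw [div_le_iff₀ (by positivity)]
      exact hlogX
    linarith
  have hsqrt : Real.log √X = ℓ * lam / 2 := by
    rw [Real.log_sqrt hXpos.le, hX, Real.log_pow]
  rw [hsqrt, hlog4] at h5
  have hsqrtX : √X ≤ X / (ℓ + 1) / 100 := by
    rw [Real.sqrt_le_left (by positivity)]
    rw [div_div, div_pow, le_div_iff₀ (by positivity)]
    have h9 : (((ℓ : ℝ) + 1) * 100) ^ 2 ≤ X := by
      rw [hX]
      exact_mod_cast pow_key1 ℓ hℓ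
    nlinarith
  have hcard : (((Ico (10 ^ ℓ) (10 ^ (ℓ + 1))).filter Nat.Prime).card : ℝ) =
      (Nat.primeCounting' (10 ^ (ℓ + 1)) : ℝ) - Nat.primeCounting' (10 ^ ℓ) := by
    rw [← h1]; push_cast; ring
  rw [hcard]
  have h2' : (Nat.primeCounting (10 ^ (ℓ + 1)) : ℝ) ≤ Nat.primeCounting' (10 ^ (ℓ + 1)) + 1 := by
    exact_mod_cast h2
  have h3' : (Nat.primeCounting' (10 ^ ℓ) : ℝ) ≤ Nat.primeCounting (10 ^ ℓ) := by
    exact_mod_cast h3
  have hlampos : 0 < lam := by linarith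
  have hq : (0 : ℝ) < X / (ℓ + 1) := by positivity
  have h10 : 2 * Real.log 2 * X / (ℓ * lam / 2) ≤ 4.4 * Real.log 2 / lam * (X / (ℓ + 1)) := by
    rw [div_le_iff₀ (by positivity)]
    have h11 : 4.4 * Real.log 2 / lam * (X / (ℓ + 1)) * (ℓ * lam / 2) =
        2.2 * Real.log 2 * X * (ℓ / (ℓ + 1)) := by
      field_simp
      ring
    rw [h11]
    have h12 : (10 / 11 : ℝ) ≤ ℓ / (ℓ + 1) := by
      rw [div_le_div_iff₀ (by norm_num) (by positivity)]
      linarith
    have h13 : 0 ≤ 2.2 * Real.log 2 * X := by positivity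
    nlinarith [mul_le_mul_of_nonneg_left h12 h13]
  have h14 : 10 * X * Real.log 2 / ((ℓ + 1) * lam) = 10 * Real.log 2 / lam * (X / (ℓ + 1)) := by
    field_simp
  have h15 : 10 * X / (10 * ((ℓ : ℝ) + 1)) = X / (ℓ + 1) := by
    field_simp
  rw [h14] at h7
  rw [h15]
  have h16 : (1.6 : ℝ) ≤ 5.6 * Real.log 2 / lam := by
    rw [le_div_iff₀ hlampos]
    nlinarith
  have h17 : (3 : ℝ) ≤ 0.1 * (X / (ℓ + 1)) := by
    have : (30 : ℝ) * (ℓ + 1) ≤ X := by
      have : ((ℓ : ℝ) + 1) * 30 ≤ (10 : ℝ) ^ ℓ := by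
        exact_mod_cast pow_key2 ℓ hℓ
      linarith
    have h18 : (30 : ℝ) ≤ X / (ℓ + 1) := by
      rw [le_div_iff₀ (by positivity)]
      exact this
    linarith
  have h19 : 10 * Real.log 2 / lam * (X / (ℓ + 1)) - 4.4 * Real.log 2 / lam * (X / (ℓ + 1)) =
      5.6 * Real.log 2 / lam * (X / (ℓ + 1)) := by ring
  have h20 : 1.6 * (X / (ℓ + 1)) ≤ 5.6 * Real.log 2 / lam * (X / (ℓ + 1)) :=
    mul_le_mul_of_nonneg_right h16 hq.le
  linarith

end Pool.Agent.CopelandErdos
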