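import Pool.Agent.CopelandErdos.Fiber
import Pool.Agent.CopelandErdos.Cheb

set_option autoImplicit false

open Finset

namespace Pool.Agent.CopelandErdos

/-- Total number of digits of the first `n` primes. -/
noncomputable def TT (n : ℕ) : ℕ :=
  ((List.range n).map (fun i => (Nat.digits 10 (Nat.nth Nat.Prime i)).length)).sum

lemma TT_succ (n : ℕ) : TT (n + 1) = TT n + (Nat.digits 10 (Nat.nth Nat.Prime n)).length := by
  unfold TT
  rw [List.range_succ, List.map_append, List.sum_append]
  simp

/-- The hypothesis that `d` is the digit sequence of the concatenated primes. -/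
def IsConcat (d : ℕ → ℕ) : Prop :=
  ∀ n : ℕ,
      (List.range ((List.range n).map
          (fun i => (Nat.digits 10 (Nat.nth Nat.Prime i)).length)).sum).map d
        = (List.range n).flatMap
          (fun i => (Nat.digits 10 (Nat.nth Nat.Prime i)).reverse)

lemma digit_eq {d : ℕ → ℕ} (hd : IsConcat d) {n l : ℕ}
    (hl : l < (Nat.digits 10 (Nat.nth Nat.Prime n)).length) :
    d (TT n + l) = Nat.nth Nat.Prime n /
      10 ^ ((Nat.digits 10 (Nat.nth Nat.Prime n)).length - 1 - l) % 10 := by
  have h1 := hd (n + 1)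
  have h0 := hd n
  have hlen : ((List.range n).flatMap
          (fun i => (Nat.digits 10 (Nat.nth Nat.Prime i)).reverse)).length = TT n := by
    rw [← h0]; simp [TT]
  rw [List.range_succ, List.flatMap_append] at h1
  have h2 : ((List.range n ++ [n]).map
          (fun i => (Nat.digits 10 (Nat.nth Nat.Prime i)).length)).sum = TT (n + 1) := by
    unfold TT; rw [List.range_succ]
  rw [h2] at h1
  have h3 := congrArg (fun z : List ℕ => z[TT n + l]?) h1
  rw [List.getElem?_append_right (by rw [hlen]; omega), hlen] at h3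
  rw [List.getElem?_map, List.getElem?_range (by rw [TT_succ]; omega)] at h3
  simp only [Option.map_some, add_tsub_cancel_left, List.flatMap_cons, List.flatMap_nil,
    List.append_nil] at h3
  rw [List.getElem?_reverse hl] at h3
  have h4 := Nat.getD_digits (Nat.nth Nat.Prime n)
    ((Nat.digits 10 (Nat.nth Nat.Prime n)).length - 1 - l) (b := 10) (by norm_num)
  rw [List.getD_eq_getElem?_getD, ← h3] at h4
  simpa using h4

lemma sum_digits_block (x m : ℕ) : ∀ e : ℕ,
    ∑ i ∈ range m, (x / 10 ^ (e + m - 1 - i) % 10) * 10 ^ (m - 1 - i) = x / 10 ^ e % 10 ^ m := by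
  induction m with
  | zero => intro e; simp [Nat.mod_one]
  | succ m ih =>
    intro e
    rw [Finset.sum_range_succ]
    have h1 : ∑ i ∈ range m, (x / 10 ^ (e + (m + 1) - 1 - i) % 10) * 10 ^ (m + 1 - 1 - i) =
        10 * ∑ i ∈ range m, (x / 10 ^ ((e + 1) + m - 1 - i) % 10) * 10 ^ (m - 1 - i) := by
      rw [Finset.mul_sum]
      apply Finset.sum_congr rfl
      intro i hi
      rw [Finset.mem_range] at hi
      have h2 : e + (m + 1) - 1 - i = (e + 1) + m - 1 - i := by omega
      have h3 : m + 1 - 1 - i = (m - 1 - i) + 1 := by omega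
      rw [h2, h3, pow_succ]
      ring
    rw [h1, ih (e + 1)]
    have h4 : e + (m + 1) - 1 - m = e := by omega
    have h5 : m + 1 - 1 - m = 0 := by omega
    rw [h4, h5, pow_zero, mul_one, pow_succ 10 m, mul_comm (10 ^ m) 10, Nat.mod_mul,
      Nat.div_div_eq_div_mul, ← pow_succ]
    ring

/-- Value of an aligned block inside a prime. -/
lemma block_value {d : ℕ → ℕ} (hd : IsConcat d) {n l m j : ℕ} (hj : j * m = TT n + l)
    (hl : l + m ≤ (Nat.digits 10 (Nat.nth Nat.Prime n)).length) :
    ∑ i ∈ range m, d (j * m + i) * 10 ^ (m - 1 - i) =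
      Nat.nth Nat.Prime n / 10 ^ ((Nat.digits 10 (Nat.nth Nat.Prime n)).length - l - m) % 10 ^ m := by
  rw [← sum_digits_block]
  apply Finset.sum_congr rfl
  intro i hi
  rw [Finset.mem_range] at hi
  rw [hj, add_assoc, digit_eq hd (by omega)]
  congr 4
  omega

end Pool.Agent.CopelandErdos
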