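import Mathlib

set_option autoImplicit false

open Finset

namespace Pool.Agent.CopelandErdos

/-- The block of `m` decimal digits of `n` starting at the digit of weight `10 ^ (c + m * t)`. -/
def blk (c m t n : ℕ) : ℕ := n / 10 ^ (c + m * t) % 10 ^ m

/-- Centered coincidence kernel. -/
noncomputable def ker (M : ℕ) (x y : ℕ) : ℝ := (if x = y then 1 else 0) - 1 / (M : ℝ)

lemma ker_comm (M x y : ℕ) : ker M x y = ker M y x := by
  unfold ker
  by_cases h : x = y
  · subst h; rfl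
  · have : y ≠ x := fun h' => h h'.symm
    simp [h, this]

lemma sum_range_mul_split (A B : ℕ) (F : ℕ → ℝ) :
    ∑ n ∈ range (A * B), F n = ∑ j ∈ range B, ∑ i ∈ range A, F (i + A * j) := by
  induction B with
  | zero => simp
  | succ B ih =>
    rw [Nat.mul_succ, Finset.sum_range_add, ih, Finset.sum_range_succ]
    congr 1
    apply Finset.sum_congr rfl
    intro i _
    rw [add_comm]

/-- `F` does not depend on the digits in places `e, …, e + m - 1`. -/
def IndepAt {α : Type*} (e m : ℕ) (F : ℕ → α) : Prop :=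
  ∀ n n' : ℕ, n % 10 ^ e = n' % 10 ^ e → n / 10 ^ (e + m) = n' / 10 ^ (e + m) → F n = F n'

lemma indepAt_blk {c m t j : ℕ} (hjt : j ≠ t) : IndepAt (c + m * t) m (blk c m j) := by
  intro n n' h1 h2
  unfold blk
  rcases Nat.lt_or_ge j t with h | h
  · -- lower block
    have hle : c + m * j + m ≤ c + m * t := by
      have : m * (j + 1) ≤ m * t := Nat.mul_le_mul_left m h
      rw [Nat.mul_succ] at this
      omega
    have h3 : n % 10 ^ (c + m * j + m) = n' % 10 ^ (c + m * j + m) := by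
      have hd : 10 ^ (c + m * j + m) ∣ 10 ^ (c + m * t) := Nat.pow_dvd_pow 10 hle
      rw [← Nat.mod_mod_of_dvd n hd, h1, Nat.mod_mod_of_dvd n' hd]
    rw [pow_add] at h3
    rw [← Nat.mod_mul_right_div_self, ← Nat.mod_mul_right_div_self, h3]
  · have h' : t < j := lt_of_le_of_ne h (fun h => hjt h.symm)
    have hle : c + m * t + m ≤ c + m * j := by
      have : m * (t + 1) ≤ m * j := Nat.mul_le_mul_left m h'
      rw [Nat.mul_succ] at this
      omega
    obtain ⟨k, hk⟩ := Nat.exists_eq_add_of_le hle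
    have h3 : n / 10 ^ (c + m * j) = n' / 10 ^ (c + m * j) := by
      rw [hk, pow_add 10 (c + m * t + m) k, ← Nat.div_div_eq_div_mul, ← Nat.div_div_eq_div_mul, h2]
    rw [h3]

lemma sum_split {e m L : ℕ} (h : e + m ≤ L) (F : ℕ → ℝ) :
    ∑ n ∈ range (10 ^ L), F n = ∑ v ∈ range (10 ^ (L - (e + m))), ∑ w ∈ range (10 ^ m),
      ∑ u ∈ range (10 ^ e), F (u + 10 ^ e * (w + 10 ^ m * v)) := by
  have h1 : 10 ^ L = 10 ^ e * (10 ^ m * 10 ^ (L - (e + m))) := by
    rw [← pow_add, ← pow_add]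
    congr 1
    omega
  rw [h1, sum_range_mul_split, sum_range_mul_split]

lemma blk_split {c m t u v w : ℕ} (hu : u < 10 ^ (c + m * t)) (hw : w < 10 ^ m) :
    blk c m t (u + 10 ^ (c + m * t) * (w + 10 ^ m * v)) = w := by
  unfold blk
  rw [Nat.add_mul_div_left _ _ (by positivity), Nat.div_eq_of_lt hu, zero_add,
    Nat.add_mul_mod_self_left, Nat.mod_eq_of_lt hw]

lemma indep_split {α : Type*} {e m u v w : ℕ} {F : ℕ → α} (hF : IndepAt e m F)
    (hu : u < 10 ^ e) (hw : w < 10 ^ m) :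
    F (u + 10 ^ e * (w + 10 ^ m * v)) = F (u + 10 ^ e * (0 + 10 ^ m * v)) := by
  apply hF
  · simp
  · have key : ∀ w : ℕ, w < 10 ^ m → (u + 10 ^ e * (w + 10 ^ m * v)) / 10 ^ (e + m) = v := by
      intro w hw
      rw [pow_add, ← Nat.div_div_eq_div_mul, Nat.add_mul_div_left _ _ (by positivity),
        Nat.div_eq_of_lt hu, zero_add, Nat.add_mul_div_left _ _ (by positivity),
        Nat.div_eq_of_lt hw, zero_add]
    rw [key w hw, key 0 (by positivity)]

lemma sum_ker (m y : ℕ) (hy : y < 10 ^ m) : ∑ w ∈ range (10 ^ m), ker (10 ^ m) w y = 0 := by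
  unfold ker
  rw [Finset.sum_sub_distrib, Finset.sum_const, Finset.card_range, Finset.sum_ite_eq',
    if_pos (Finset.mem_range.2 hy), nsmul_eq_mul]
  push_cast
  field_simp
  norm_num

lemma sum_ker_sq (m y : ℕ) (hy : y < 10 ^ m) :
    ∑ w ∈ range (10 ^ m), (ker (10 ^ m) w y) ^ 2 ≤ 1 := by
  have h1 : ∀ w ∈ range (10 ^ m), (ker (10 ^ m) w y) ^ 2 =
      (1 - 2 / ((10 ^ m : ℕ) : ℝ)) * (if w = y then 1 else 0) + (1 / ((10 ^ m : ℕ) : ℝ)) ^ 2 := by
    intro w _
    unfold ker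
    split_ifs <;> ring
  rw [Finset.sum_congr rfl h1, Finset.sum_add_distrib, ← Finset.mul_sum, Finset.sum_ite_eq',
    if_pos (Finset.mem_range.2 hy), Finset.sum_const, Finset.card_range, nsmul_eq_mul]
  push_cast
  have h2 : (0 : ℝ) < 10 ^ m := by positivity
  have h3 : (10 : ℝ) ^ m * (1 / 10 ^ m) ^ 2 = 1 / 10 ^ m := by field_simp
  rw [h3]
  have h4 : (0 : ℝ) ≤ 1 / 10 ^ m := by positivity
  have h5 : (2 : ℝ) / 10 ^ m = 2 * (1 / 10 ^ m) := by ring
  rw [h5]
  linarith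

lemma blk_lt (c m t n : ℕ) : blk c m t n < 10 ^ m := Nat.mod_lt _ (by positivity)

/-- Orthogonality. -/
lemma sum_ker_mul_eq_zero {c m t L : ℕ} (h : c + m * t + m ≤ L) (y : ℕ → ℕ)
    (hy : IndepAt (c + m * t) m y) (hylt : ∀ n, y n < 10 ^ m) (F : ℕ → ℝ)
    (hF : IndepAt (c + m * t) m F) :
    ∑ n ∈ range (10 ^ L), ker (10 ^ m) (blk c m t n) (y n) * F n = 0 := by
  rw [sum_split h]
  apply Finset.sum_eq_zero
  intro v _
  rw [Finset.sum_comm]
  apply Finset.sum_eq_zero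
  intro u hu
  rw [Finset.mem_range] at hu
  have h1 : ∀ w ∈ range (10 ^ m),
      ker (10 ^ m) (blk c m t (u + 10 ^ (c + m * t) * (w + 10 ^ m * v)))
        (y (u + 10 ^ (c + m * t) * (w + 10 ^ m * v))) *
        F (u + 10 ^ (c + m * t) * (w + 10 ^ m * v)) =
      ker (10 ^ m) w (y (u + 10 ^ (c + m * t) * (0 + 10 ^ m * v))) *
        F (u + 10 ^ (c + m * t) * (0 + 10 ^ m * v)) := by
    intro w hw
    rw [Finset.mem_range] at hw
    rw [blk_split hu hw, indep_split hF hu hw, indep_split hy hu hw]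
  rw [Finset.sum_congr rfl h1, ← Finset.sum_mul, sum_ker m _ (hylt _), zero_mul]

lemma sum_ker_sq_le {c m t L : ℕ} (h : c + m * t + m ≤ L) (y : ℕ → ℕ)
    (hy : IndepAt (c + m * t) m y) (hylt : ∀ n, y n < 10 ^ m) :
    ∑ n ∈ range (10 ^ L), (ker (10 ^ m) (blk c m t n) (y n)) ^ 2 ≤ 10 ^ L / 10 ^ m := by
  rw [sum_split h]
  have h1 : ∀ v ∈ range (10 ^ (L - (c + m * t + m))), ∑ w ∈ range (10 ^ m),
      ∑ u ∈ range (10 ^ (c + m * t)),
        (ker (10 ^ m) (blk c m t (u + 10 ^ (c + m * t) * (w + 10 ^ m * v)))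
        (y (u + 10 ^ (c + m * t) * (w + 10 ^ m * v)))) ^ 2 ≤ 10 ^ (c + m * t) := by
    intro v _
    rw [Finset.sum_comm]
    calc ∑ u ∈ range (10 ^ (c + m * t)), ∑ w ∈ range (10 ^ m),
        (ker (10 ^ m) (blk c m t (u + 10 ^ (c + m * t) * (w + 10 ^ m * v)))
        (y (u + 10 ^ (c + m * t) * (w + 10 ^ m * v)))) ^ 2
        ≤ ∑ u ∈ range (10 ^ (c + m * t)), (1 : ℝ) := by
          apply Finset.sum_le_sum
          intro u hu
          rw [Finset.mem_range] at hu
          have h1 : ∀ w ∈ range (10 ^ m),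
              (ker (10 ^ m) (blk c m t (u + 10 ^ (c + m * t) * (w + 10 ^ m * v)))
                (y (u + 10 ^ (c + m * t) * (w + 10 ^ m * v)))) ^ 2 =
              (ker (10 ^ m) w (y (u + 10 ^ (c + m * t) * (0 + 10 ^ m * v)))) ^ 2 := by
            intro w hw
            rw [Finset.mem_range] at hw
            rw [blk_split hu hw, indep_split hy hu hw]
          rw [Finset.sum_congr rfl h1]
          exact sum_ker_sq m _ (hylt _)
      _ = 10 ^ (c + m * t) := by
          rw [Finset.sum_const, Finset.card_range, nsmul_eq_mul]; push_cast; ring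
  refine (Finset.sum_le_sum h1).trans ?_
  rw [Finset.sum_const, Finset.card_range, nsmul_eq_mul]
  push_cast
  rw [le_div_iff₀ (by positivity), ← pow_add, ← pow_add]
  apply le_of_eq
  congr 1
  omega

lemma indepAt_ker {c m t i j : ℕ} (hi : i ≠ t) (hj : j ≠ t) :
    IndepAt (c + m * t) m (fun n => ker (10 ^ m) (blk c m i n) (blk c m j n)) := by
  intro n n' h1 h2
  simp only
  rw [indepAt_blk hi n n' h1 h2, indepAt_blk hj n n' h1 h2]

/-- The pair statistic attached to a set of pairs of block positions. -/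
noncomputable def pairStat (c m : ℕ) (P : Finset (ℕ × ℕ)) (n : ℕ) : ℝ :=
  ∑ x ∈ P, ker (10 ^ m) (blk c m x.1 n) (blk c m x.2 n)

lemma sum_pair_mul_le {c m L : ℕ} {x y : ℕ × ℕ} (hx : x.1 ≠ x.2) (hy : y.1 ≠ y.2)
    (hx1 : c + m * x.1 + m ≤ L) (hx2 : c + m * x.2 + m ≤ L) :
    ∑ n ∈ range (10 ^ L), ker (10 ^ m) (blk c m x.1 n) (blk c m x.2 n) *
      ker (10 ^ m) (blk c m y.1 n) (blk c m y.2 n) ≤
    (if y = x then (10 : ℝ) ^ L / 10 ^ m else 0) + (if y = x.swap then (10 : ℝ) ^ L / 10 ^ m else 0) := by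
  have hpos : (0 : ℝ) ≤ 10 ^ L / 10 ^ m := by positivity
  have hbound := sum_ker_sq_le (L := L) hx1 (blk c m x.2) (indepAt_blk hx.symm) (blk_lt c m x.2)
  by_cases h1 : y = x
  · subst h1
    rw [if_pos rfl]
    have : (0 : ℝ) ≤ (if y = y.swap then (10 : ℝ) ^ L / 10 ^ m else 0) := by
      split_ifs <;> positivity
    calc ∑ n ∈ range (10 ^ L), ker (10 ^ m) (blk c m y.1 n) (blk c m y.2 n) *
      ker (10 ^ m) (blk c m y.1 n) (blk c m y.2 n) =
        ∑ n ∈ range (10 ^ L), (ker (10 ^ m) (blk c m y.1 n) (blk c m y.2 n)) ^ 2 := by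
          apply Finset.sum_congr rfl; intro n _; ring
      _ ≤ 10 ^ L / 10 ^ m := hbound
      _ ≤ _ := by linarith
  · rw [if_neg h1, zero_add]
    by_cases h2 : y = x.swap
    · rw [if_pos h2]
      subst h2
      calc ∑ n ∈ range (10 ^ L), ker (10 ^ m) (blk c m x.1 n) (blk c m x.2 n) *
        ker (10 ^ m) (blk c m x.swap.1 n) (blk c m x.swap.2 n) =
          ∑ n ∈ range (10 ^ L), (ker (10 ^ m) (blk c m x.1 n) (blk c m x.2 n)) ^ 2 := by
            apply Finset.sum_congr rfl; intro n _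
            rw [Prod.fst_swap, Prod.snd_swap, ker_comm _ (blk c m x.2 n) (blk c m x.1 n)]; ring
        _ ≤ 10 ^ L / 10 ^ m := hbound
    · rw [if_neg h2]
      apply le_of_eq
      -- one of the indices of x is not an index of y
      obtain ⟨x1, x2⟩ := x
      obtain ⟨y1, y2⟩ := y
      simp only [Prod.swap_prod_mk, Prod.mk.injEq, not_and] at *
      by_cases h3 : x1 ≠ y1 ∧ x1 ≠ y2
      · exact sum_ker_mul_eq_zero hx1 (blk c m x2) (indepAt_blk hx.symm) (blk_lt c m x2) _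
          (indepAt_ker (fun h => h3.1 h.symm) (fun h => h3.2 h.symm))
      · have h4 : y1 ≠ x2 ∧ y2 ≠ x2 := by
          constructor
          · intro h5
            apply h3
            constructor
            · intro h6; exact hx (h6.trans h5)
            · intro h6; exact h2 h5 h6.symm
          · intro h5
            apply h3
            constructor
            · intro h6; exact h1 h6.symm h5
            · intro h6; exact hx (h6.trans h5)
        have := sum_ker_mul_eq_zero hx2 (blk c m x1) (indepAt_blk hx) (blk_lt c m x1) _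
          (indepAt_ker h4.1 h4.2)
        rw [← this]
        apply Finset.sum_congr rfl
        intro n _
        rw [ker_comm _ (blk c m x2 n) (blk c m x1 n)]

/-- Second moment bound. -/
lemma sum_pairStat_sq_le {c m L : ℕ} (P : Finset (ℕ × ℕ)) (hP : ∀ x ∈ P, x.1 ≠ x.2)
    (hP1 : ∀ x ∈ P, c + m * x.1 + m ≤ L) (hP2 : ∀ x ∈ P, c + m * x.2 + m ≤ L) :
    ∑ n ∈ range (10 ^ L), (pairStat c m P n) ^ 2 ≤ 2 * P.card * (10 ^ L / 10 ^ m) := by
  unfold pairStat
  have hpos : (0 : ℝ) ≤ 10 ^ L / 10 ^ m := by positivity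
  calc ∑ n ∈ range (10 ^ L), (∑ x ∈ P, ker (10 ^ m) (blk c m x.1 n) (blk c m x.2 n)) ^ 2
      = ∑ x ∈ P, ∑ y ∈ P, ∑ n ∈ range (10 ^ L), ker (10 ^ m) (blk c m x.1 n) (blk c m x.2 n) *
        ker (10 ^ m) (blk c m y.1 n) (blk c m y.2 n) := by
        have h1 : ∀ n ∈ range (10 ^ L),
            (∑ x ∈ P, ker (10 ^ m) (blk c m x.1 n) (blk c m x.2 n)) ^ 2 =
            ∑ x ∈ P, ∑ y ∈ P, ker (10 ^ m) (blk c m x.1 n) (blk c m x.2 n) *
              ker (10 ^ m) (blk c m y.1 n) (blk c m y.2 n) := by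
          intro n _
          rw [sq, Finset.sum_mul_sum]
        rw [Finset.sum_congr rfl h1, Finset.sum_comm]
        apply Finset.sum_congr rfl
        intro x _
        rw [Finset.sum_comm]
    _ ≤ ∑ x ∈ P, ∑ y ∈ P, ((if y = x then (10 : ℝ) ^ L / 10 ^ m else 0) +
        (if y = x.swap then (10 : ℝ) ^ L / 10 ^ m else 0)) := by
        apply Finset.sum_le_sum
        intro x hx
        apply Finset.sum_le_sum
        intro y hy
        exact sum_pair_mul_le (hP x hx) (hP y hy) (hP1 x hx) (hP2 x hx)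
    _ ≤ ∑ x ∈ P, (2 * (10 ^ L / 10 ^ m)) := by
        apply Finset.sum_le_sum
        intro x hx
        rw [Finset.sum_add_distrib, Finset.sum_ite_eq', Finset.sum_ite_eq', if_pos hx]
        split_ifs <;> linarith
    _ = 2 * P.card * (10 ^ L / 10 ^ m) := by
        rw [Finset.sum_const, nsmul_eq_mul]; ring

lemma sum_abs_pairStat_le {c m L : ℕ} (P : Finset (ℕ × ℕ)) (hP : ∀ x ∈ P, x.1 ≠ x.2)
    (hP1 : ∀ x ∈ P, c + m * x.1 + m ≤ L) (hP2 : ∀ x ∈ P, c + m * x.2 + m ≤ L) :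
    ∑ n ∈ range (10 ^ L), |pairStat c m P n| ≤ 10 ^ L * √(2 * P.card / 10 ^ m) := by
  have h1 := sum_pairStat_sq_le P hP hP1 hP2
  have h2 : (∑ n ∈ range (10 ^ L), |pairStat c m P n|) ^ 2 ≤
      (range (10 ^ L)).card * ∑ n ∈ range (10 ^ L), |pairStat c m P n| ^ 2 :=
    sq_sum_le_card_mul_sum_sq
  rw [Finset.card_range] at h2
  have h3 : ∑ n ∈ range (10 ^ L), |pairStat c m P n| ^ 2 =
      ∑ n ∈ range (10 ^ L), (pairStat c m P n) ^ 2 := by
    apply Finset.sum_congr rfl; intro n _; rw [sq_abs]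
  rw [h3] at h2
  have h4 : (∑ n ∈ range (10 ^ L), |pairStat c m P n|) ^ 2 ≤
      (10 ^ L * √(2 * P.card / 10 ^ m)) ^ 2 := by
    rw [mul_pow, Real.sq_sqrt (by positivity)]
    calc (∑ n ∈ range (10 ^ L), |pairStat c m P n|) ^ 2
        ≤ ((10 ^ L : ℕ) : ℝ) * ∑ n ∈ range (10 ^ L), (pairStat c m P n) ^ 2 := h2
      _ ≤ ((10 ^ L : ℕ) : ℝ) * (2 * P.card * (10 ^ L / 10 ^ m)) := by gcongr
      _ = (10 ^ L) ^ 2 * (2 * P.card / 10 ^ m) := by push_cast; ring
  exact le_of_sq_le_sq h4 (by positivity)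

end Pool.Agent.CopelandErdos
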