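import Pool.Agent.CopelandErdos.BT
import Pool.Agent.CopelandErdos.Moment

set_option autoImplicit false

open Finset

namespace Pool.Agent.CopelandErdos

/-- Primes with `L` decimal digits. -/
def primesL (L : ℕ) : Finset ℕ := (Ico (10 ^ (L - 1)) (10 ^ L)).filter Nat.Prime

lemma sum_primesL_le {e m L : ℕ} (hm : 1 ≤ m) (hL : e + m + 1 < L) (G : ℕ → ℝ)
    (hG0 : ∀ n, 0 ≤ G n) (hG : IndepAt e m G) :
    ∑ p ∈ primesL L, G p ≤ 30 / m * ∑ n ∈ range (10 ^ L), G n := by
  have hmR : (0 : ℝ) < m := by exact_mod_cast hm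
  have h1 : ∑ p ∈ primesL L, G p =
      ∑ n ∈ range (10 ^ L), (if n.Prime ∧ 10 ^ (L - 1) ≤ n then G n else 0) := by
    rw [← Finset.sum_filter]
    apply Finset.sum_congr _ (fun _ _ => rfl)
    ext n
    simp only [primesL, Finset.mem_filter, Finset.mem_Ico, Finset.mem_range]
    tauto
  rw [h1, sum_split (by omega : e + m ≤ L), sum_split (by omega : e + m ≤ L), Finset.mul_sum]
  apply Finset.sum_le_sum
  intro v _
  rw [Finset.sum_comm, Finset.sum_comm (s := range (10 ^ m)) (t := range (10 ^ e)), Finset.mul_sum]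
  apply Finset.sum_le_sum
  intro u hu
  rw [Finset.mem_range] at hu
  set g := G (u + 10 ^ e * (0 + 10 ^ m * v)) with hg
  have h2 : ∑ w ∈ range (10 ^ m), G (u + 10 ^ e * (w + 10 ^ m * v)) = 10 ^ m * g := by
    rw [Finset.sum_congr rfl (fun w hw => indep_split hG hu (Finset.mem_range.1 hw)),
      Finset.sum_const, Finset.card_range, nsmul_eq_mul]
    push_cast
    rfl
  rw [h2]
  have h3 : ∑ w ∈ range (10 ^ m), (if (u + 10 ^ e * (w + 10 ^ m * v)).Prime ∧
      10 ^ (L - 1) ≤ u + 10 ^ e * (w + 10 ^ m * v) then G (u + 10 ^ e * (w + 10 ^ m * v)) else 0) ≤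
      (((range (10 ^ m)).filter (fun k => ((u + 10 ^ e * (10 ^ m * v)) + 10 ^ e * k).Prime ∧
        10 ^ m < (u + 10 ^ e * (10 ^ m * v)) + 10 ^ e * k)).card : ℝ) * g := by
    rw [Finset.card_eq_sum_ones, Finset.sum_filter]
    push_cast
    rw [Finset.sum_mul]
    apply Finset.sum_le_sum
    intro w hw
    have h4 : u + 10 ^ e * (w + 10 ^ m * v) = (u + 10 ^ e * (10 ^ m * v)) + 10 ^ e * w := by ring
    rw [indep_split hG hu (Finset.mem_range.1 hw), ← hg, h4]
    by_cases h5 : ((u + 10 ^ e * (10 ^ m * v)) + 10 ^ e * w).Prime ∧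
        10 ^ (L - 1) ≤ (u + 10 ^ e * (10 ^ m * v)) + 10 ^ e * w
    · have h6 : 10 ^ m < 10 ^ (L - 1) := Nat.pow_lt_pow_right (by norm_num) (by omega)
      rw [if_pos h5, if_pos ⟨h5.1, lt_of_lt_of_le h6 h5.2⟩, one_mul]
    · rw [if_neg h5]
      split_ifs
      · rw [one_mul]; exact hG0 _
      · rw [zero_mul]
  refine h3.trans ?_
  have h7 := primes_in_progression (u + 10 ^ e * (10 ^ m * v)) e m hm
  have h8 : 0 ≤ g := hG0 _
  calc (((range (10 ^ m)).filter (fun k => ((u + 10 ^ e * (10 ^ m * v)) + 10 ^ e * k).Prime ∧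
        10 ^ m < (u + 10 ^ e * (10 ^ m * v)) + 10 ^ e * k)).card : ℝ) * g
      ≤ (30 * 10 ^ m / m) * g := by gcongr
    _ = 30 / m * (10 ^ m * g) := by ring

end Pool.Agent.CopelandErdos
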