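import Pool.Agent.CopelandErdos.Main

set_option autoImplicit false

open Finset Filter

namespace Pool.Agent.CopelandErdos

lemma TT_le {L : ℕ} (n : ℕ) : n ≤ Nat.primeCounting' (10 ^ L) → TT n ≤ n * L := by
  induction n with
  | zero => intro _; simp [TT]
  | succ n ih =>
    intro h
    rw [TT_succ]
    have h1 := nth_lt (n := n) (b := 10 ^ L) (by omega)
    have h2 := (Nat.digits_length_le_iff (by norm_num : 1 < 10) (Nat.nth Nat.Prime n) (k := L)).2 h1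
    have h3 := ih (by omega)
    rw [Nat.succ_mul]
    omega

lemma QQ_le {m L n : ℕ} (h : n ≤ Nat.primeCounting' (10 ^ L)) : QQ m n ≤ 10 ^ L * L := by
  unfold QQ
  have h1 := TT_le n h
  have h2 : Nat.primeCounting' (10 ^ L) ≤ 10 ^ L := Nat.count_le _
  calc TT n / m ≤ TT n := Nat.div_le_self _ _
    _ ≤ n * L := h1
    _ ≤ 10 ^ L * L := Nat.mul_le_mul_right _ (h.trans h2)

lemma eventually_sqrt_le :
    ∀ᶠ n : ℕ in atTop, 0 < Real.sqrt (2 * (n : ℝ) * Real.log (Real.log (n : ℝ))) ∧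
      2 * Real.sqrt (2 * (n : ℝ) * Real.log (Real.log (n : ℝ))) ≤ (n : ℝ) ^ (3 / 5 : ℝ) := by
  filter_upwards [eventually_ge_atTop (80 ^ 10)] with n hn
  have hnR : ((80 : ℝ) ^ 10) ≤ n := by exact_mod_cast hn
  have hn1 : (1 : ℝ) < n := lt_of_lt_of_le (by norm_num) hnR
  have hn0 : (0 : ℝ) < n := by linarith
  have hlog : 1 < Real.log n := by
    rw [Real.lt_log_iff_exp_lt hn0]
    have := Real.exp_one_lt_d9
    linarith
  have hloglog : 0 < Real.log (Real.log n) := Real.log_pos hlog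
  constructor
  · apply Real.sqrt_pos.2
    positivity
  · have h1 : Real.log (Real.log n) ≤ Real.log n := by
      have := Real.log_le_sub_one_of_pos (show 0 < Real.log n by linarith)
      linarith
    have h2 : Real.log n ≤ (n : ℝ) ^ (1 / 10 : ℝ) / (1 / 10) :=
      Real.log_le_rpow_div hn0.le (by norm_num)
    have h3 : (80 : ℝ) ≤ (n : ℝ) ^ (1 / 10 : ℝ) := by
      have : ((80 : ℝ) ^ 10) ^ (1 / 10 : ℝ) ≤ (n : ℝ) ^ (1 / 10 : ℝ) :=
        Real.rpow_le_rpow (by positivity) hnR (by norm_num)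
      rw [← Real.rpow_natCast, ← Real.rpow_mul (by norm_num)] at this
      norm_num at this
      simpa using this
    have h4 : (2 * Real.sqrt (2 * (n : ℝ) * Real.log (Real.log (n : ℝ)))) ^ 2 ≤
        ((n : ℝ) ^ (3 / 5 : ℝ)) ^ 2 := by
      rw [mul_pow, Real.sq_sqrt (by positivity)]
      have h5 : ((n : ℝ) ^ (3 / 5 : ℝ)) ^ 2 = n * ((n : ℝ) ^ (1 / 10 : ℝ) * (n : ℝ) ^ (1 / 10 : ℝ)) := by
        rw [← Real.rpow_natCast, ← Real.rpow_mul hn0.le, ← Real.rpow_add hn0]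
        conv_rhs => rw [← Real.rpow_one_add' hn0.le (by norm_num)]
        norm_num
      rw [h5]
      have h6 : (8 : ℝ) * Real.log (Real.log n) ≤ (n : ℝ) ^ (1 / 10 : ℝ) * (n : ℝ) ^ (1 / 10 : ℝ) := by
        have h7 : (8 : ℝ) * Real.log (Real.log n) ≤ 80 * (n : ℝ) ^ (1 / 10 : ℝ) := by
          have : (n : ℝ) ^ (1 / 10 : ℝ) / (1 / 10) = 10 * (n : ℝ) ^ (1 / 10 : ℝ) := by ring
          rw [this] at h2
          linarith
        refine h7.trans ?_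
        apply mul_le_mul_of_nonneg_right h3 (by positivity)
      nlinarith [mul_le_mul_of_nonneg_left h6 hn0.le]
    exact le_of_sq_le_sq h4 (by positivity)

lemma cnt_le (d : ℕ → ℕ) (m w N : ℕ) : cnt d m w N ≤ N := by
  unfold cnt
  refine (Finset.card_filter_le _ _).trans ?_
  rw [Finset.card_range]

/-- From the limsup/liminf bounds to a discrepancy bound. -/
lemma discrepancy {d : ℕ → ℕ} {m : ℕ} (hm : 1 ≤ m)
    (h : ∀ k : ℕ, k < 10 ^ m →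
        (∀ ε : ℝ, 0 < ε → ∀ᶠ n : ℕ in Filter.atTop,
          ((cnt d m k n : ℝ) - (n : ℝ) / (10 : ℝ) ^ m)
            / Real.sqrt (2 * (n : ℝ) * Real.log (Real.log (n : ℝ)))
            < Real.sqrt ((10 : ℝ) ^ m - 1) / (10 : ℝ) ^ m + ε) ∧
        (∀ ε : ℝ, 0 < ε → ∀ᶠ n : ℕ in Filter.atTop,
          -(Real.sqrt ((10 : ℝ) ^ m - 1) / (10 : ℝ) ^ m) - ε <
          ((cnt d m k n : ℝ) - (n : ℝ) / (10 : ℝ) ^ m)
            / Real.sqrt (2 * (n : ℝ) * Real.log (Real.log (n : ℝ))))) :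
    ∃ N₀ : ℕ, ∀ k < 10 ^ m, ∀ n : ℕ, |(cnt d m k n : ℝ) - (n : ℝ) / 10 ^ m| ≤
      N₀ + (n : ℝ) ^ (3 / 5 : ℝ) := by
  have hM : (10 : ℝ) ^ 1 ≤ 10 ^ m := pow_le_pow_right₀ (by norm_num) hm
  rw [pow_one] at hM
  have hS : Real.sqrt ((10 : ℝ) ^ m - 1) / (10 : ℝ) ^ m ≤ 1 := by
    rw [div_le_one (by positivity), Real.sqrt_le_left (by positivity)]
    nlinarith
  have h1 : ∀ᶠ n : ℕ in atTop, ∀ k ∈ range (10 ^ m),
      |(cnt d m k n : ℝ) - (n : ℝ) / 10 ^ m| ≤ (n : ℝ) ^ (3 / 5 : ℝ) := by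
    rw [Filter.eventually_all_finset]
    intro k hk
    rw [Finset.mem_range] at hk
    obtain ⟨ha, hb⟩ := h k hk
    filter_upwards [ha 1 one_pos, hb 1 one_pos, eventually_sqrt_le] with n h2 h3 h4
    obtain ⟨h5, h6⟩ := h4
    rw [div_lt_iff₀ h5] at h2
    rw [lt_div_iff₀ h5] at h3
    rw [abs_le]
    constructor
    · nlinarith
    · nlinarith
  obtain ⟨N₀, hN₀⟩ := eventually_atTop.1 h1
  refine ⟨N₀, ?_⟩
  intro k hk n
  have hpow : (0 : ℝ) ≤ (n : ℝ) ^ (3 / 5 : ℝ) := by positivity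
  by_cases hn : N₀ ≤ n
  · have := hN₀ n hn k (Finset.mem_range.2 hk)
    have h0 : (0 : ℝ) ≤ N₀ := by positivity
    linarith
  · push Not at hn
    have h2 : (cnt d m k n : ℝ) ≤ n := by exact_mod_cast cnt_le d m k n
    have h3 : (n : ℝ) ≤ N₀ := by exact_mod_cast hn.le
    have h4 : (n : ℝ) / 10 ^ m ≤ n := by
      apply div_le_self (by positivity)
      linarith
    have h5 : (0 : ℝ) ≤ (n : ℝ) / 10 ^ m := by positivity
    have h6 : (0 : ℝ) ≤ cnt d m k n := by positivity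
    rw [abs_le]
    constructor <;> linarith

lemma exists_large (C : ℝ) : ∃ r : ℕ, 2 ≤ r ∧ C * r < 10 ^ r := by
  have h := tendsto_pow_const_div_const_pow_of_one_lt 1 (by norm_num : (1 : ℝ) < 10)
  have h2 : ∀ᶠ n : ℕ in atTop, (n : ℝ) ^ 1 / 10 ^ n < 1 / (|C| + 1) := by
    apply h.eventually_lt_const
    positivity
  obtain ⟨r, hr1, hr2⟩ := (h2.and (eventually_ge_atTop 2)).exists
  refine ⟨r, hr2, ?_⟩
  rw [pow_one, div_lt_div_iff₀ (by positivity) (by positivity), one_mul] at hr1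
  have h3 : C ≤ |C| := le_abs_self C
  have h4 : (0 : ℝ) ≤ r := by positivity
  nlinarith

lemma lin_le_pow (r : ℕ) (hr : 2 ≤ r) : 10 * (3 * r + 1) ≤ 10 ^ r := by
  induction r, hr using Nat.le_induction with
  | base => norm_num
  | succ k hk ih =>
    rw [pow_succ 10 k]
    linarith

theorem not_strongly_normal (d : ℕ → ℕ) (hd : IsConcat d) :
    ¬ (∀ k : ℕ, k < 10 ^ 10 →
        (∀ ε : ℝ, 0 < ε → ∀ᶠ n : ℕ in Filter.atTop,
          ((cnt d 10 k n : ℝ) - (n : ℝ) / (10 : ℝ) ^ 10)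
            / Real.sqrt (2 * (n : ℝ) * Real.log (Real.log (n : ℝ)))
            < Real.sqrt ((10 : ℝ) ^ 10 - 1) / (10 : ℝ) ^ 10 + ε) ∧
        (∀ ε : ℝ, 0 < ε → ∀ᶠ n : ℕ in Filter.atTop,
          -(Real.sqrt ((10 : ℝ) ^ 10 - 1) / (10 : ℝ) ^ 10) - ε <
          ((cnt d 10 k n : ℝ) - (n : ℝ) / (10 : ℝ) ^ 10)
            / Real.sqrt (2 * (n : ℝ) * Real.log (Real.log (n : ℝ))))) := by
  intro h
  obtain ⟨N₀, hN₀⟩ := discrepancy (by norm_num) h
  obtain ⟨r, hr2, hr⟩ := exists_large (10 ^ 9 * (N₀ + 1))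
  set L := 10 * (3 * r + 1) with hL
  have hrR : (2 : ℝ) ≤ r := by exact_mod_cast hr2
  set E : ℝ := N₀ + 10 ^ (19 * r + 6) with hEdef
  have hE0 : 0 ≤ E := by positivity
  have hE : ∀ w < 10 ^ 10, ∀ n, n ≤ Nat.primeCounting' (10 ^ L) →
      |(cnt d 10 w (QQ 10 n) : ℝ) - (QQ 10 n : ℝ) / 10 ^ 10| ≤ E := by
    intro w hw n hn
    refine (hN₀ w hw (QQ 10 n)).trans ?_
    rw [hEdef]
    have h1 : QQ 10 n ≤ 10 ^ (31 * r + 10) := by
      calc QQ 10 n ≤ 10 ^ L * L := QQ_le hn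
        _ ≤ 10 ^ L * 10 ^ r := Nat.mul_le_mul_left _ (lin_le_pow r hr2)
        _ = 10 ^ (31 * r + 10) := by rw [← pow_add]; congr 1; omega
    have h2 : (QQ 10 n : ℝ) ≤ (10 : ℝ) ^ (31 * r + 10) := by exact_mod_cast h1
    have h3 : (QQ 10 n : ℝ) ^ (3 / 5 : ℝ) ≤ (10 : ℝ) ^ (19 * r + 6) := by
      calc (QQ 10 n : ℝ) ^ (3 / 5 : ℝ) ≤ ((10 : ℝ) ^ (31 * r + 10)) ^ (3 / 5 : ℝ) :=
            Real.rpow_le_rpow (by positivity) h2 (by norm_num)
        _ = (10 : ℝ) ^ (((31 * r + 10 : ℕ) : ℝ) * (3 / 5)) := by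
            rw [← Real.rpow_natCast, ← Real.rpow_mul (by norm_num)]
        _ ≤ (10 : ℝ) ^ (((19 * r + 6 : ℕ) : ℝ)) := by
            apply Real.rpow_le_rpow_of_exponent_le (by norm_num)
            push_cast
            linarith
        _ = (10 : ℝ) ^ (19 * r + 6) := Real.rpow_natCast _ _
    linarith
  have key := main_ineq (m := 10) (r := r) hd (by norm_num) (by omega) hE0 (by omega) hE
  rw [← hL] at key
  have hsq : √((10 : ℝ) ^ 10) = 10 ^ 5 := by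
    rw [show (10 : ℝ) ^ 10 = (10 ^ 5) ^ 2 by norm_num]
    exact Real.sqrt_sq (by norm_num)
  rw [hsq] at key
  have hX : (0 : ℝ) < 10 ^ L := by positivity
  have h1 : (0.002 : ℝ) * 10 ^ L ≤ r * 10 ^ (10 * (r + 1)) * (2 * E) := by
    have h2 : (10 : ℝ) ^ L / (40 * (10 : ℕ)) * (1 - 2 / 10 ^ 10) -
        150 * 10 ^ L / ((10 : ℕ) * 10 ^ 5) ≥ 0.002 * 10 ^ L := by
      norm_num
      linarith
    linarith
  have h3 : E ≤ (N₀ + 1) * 10 ^ (19 * r + 6) := by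
    rw [hEdef]
    have h4 : (1 : ℝ) ≤ 10 ^ (19 * r + 6) := one_le_pow₀ (by norm_num)
    have h5 : (0 : ℝ) ≤ N₀ := by positivity
    nlinarith
  have h6 : (10 : ℝ) ^ L = 10 ^ r * (10 ^ (10 * (r + 1)) * 10 ^ (19 * r)) := by
    rw [← pow_add, ← pow_add]
    congr 1
    omega
  have h7 : (10 : ℝ) ^ (19 * r + 6) = 10 ^ 6 * 10 ^ (19 * r) := by rw [pow_add]; ring
  rw [h6] at h1
  rw [h7] at h3
  set Y : ℝ := 10 ^ (10 * (r + 1)) * 10 ^ (19 * r) with hY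
  have hYpos : 0 < Y := by positivity
  have h8 : (r : ℝ) * 10 ^ (10 * (r + 1)) * (2 * E) ≤ r * (N₀ + 1) * 2 * 10 ^ 6 * Y := by
    have h9 : (0 : ℝ) ≤ r * 10 ^ (10 * (r + 1)) * 2 := by positivity
    calc (r : ℝ) * 10 ^ (10 * (r + 1)) * (2 * E) = r * 10 ^ (10 * (r + 1)) * 2 * E := by ring
      _ ≤ r * 10 ^ (10 * (r + 1)) * 2 * ((N₀ + 1) * (10 ^ 6 * 10 ^ (19 * r))) :=
          mul_le_mul_of_nonneg_left h3 h9
      _ = _ := by rw [hY]; ring
  have h10 : (10 : ℝ) ^ r * Y ≤ 10 ^ 9 * (N₀ + 1) * r * Y := by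
    have h11 : 0.002 * (10 ^ r * Y) ≤ r * (N₀ + 1) * 2 * 10 ^ 6 * Y := h1.trans h8
    nlinarith
  have h12 : (10 : ℝ) ^ r ≤ 10 ^ 9 * (N₀ + 1) * r := le_of_mul_le_mul_right h10 hYpos
  linarith

end Pool.Agent.CopelandErdos
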