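import Pool.Agent.CopelandErdos.Stat

set_option autoImplicit false

open Finset

namespace Pool.Agent.CopelandErdos

section

variable {d : ℕ → ℕ} {m r : ℕ}

def PP1 (r : ℕ) : Finset (ℕ × ℕ) := (PP r).filter (fun x => r ≤ x.2)

def PP2 (r : ℕ) : Finset (ℕ × ℕ) := (PP r).filter (fun x => ¬ r ≤ x.2)

lemma mem_PP {r : ℕ} {x : ℕ × ℕ} (hx : x ∈ PP r) :
    2 * r ≤ x.1 ∧ x.1 < 3 * r ∧ x.2 < 3 * r ∧ x.1 ≠ x.2 := by
  rw [PP, Finset.mem_filter, Finset.mem_product, Finset.mem_Ico, Finset.mem_range] at hx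
  exact ⟨hx.1.1.1, hx.1.1.2, hx.1.2, hx.2⟩

lemma card_PP_le (r : ℕ) : (PP r).card ≤ r * (3 * r) := by
  unfold PP
  refine (Finset.card_filter_le _ _).trans ?_
  rw [Finset.card_product, Nat.card_Ico, Finset.card_range]
  apply Nat.mul_le_mul_right
  omega

lemma blk_high {c t r' n n' : ℕ} (ht : r' ≤ t)
    (h : n / 10 ^ (c + m * r') = n' / 10 ^ (c + m * r')) : blk c m t n = blk c m t n' := by
  unfold blk
  have h1 : c + m * t = (c + m * r') + m * (t - r') := by
    have : t = r' + (t - r') := by omega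
    rw [add_assoc, ← Nat.mul_add, ← this]
  rw [h1, pow_add, ← Nat.div_div_eq_div_mul, ← Nat.div_div_eq_div_mul, h]

lemma blk_low {c t r' n n' : ℕ} (ht : t < r')
    (h : n % 10 ^ (c + m * r') = n' % 10 ^ (c + m * r')) : blk c m t n = blk c m t n' := by
  unfold blk
  have hle : c + m * t + m ≤ c + m * r' := by
    have : m * (t + 1) ≤ m * r' := Nat.mul_le_mul_left m ht
    rw [Nat.mul_succ] at this
    omega
  have h3 : n % 10 ^ (c + m * t + m) = n' % 10 ^ (c + m * t + m) := by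
    have hd : 10 ^ (c + m * t + m) ∣ 10 ^ (c + m * r') := Nat.pow_dvd_pow 10 hle
    rw [← Nat.mod_mod_of_dvd n hd, h, Nat.mod_mod_of_dvd n' hd]
  rw [pow_add] at h3
  rw [← Nat.mod_mul_right_div_self, ← Nat.mod_mul_right_div_self, h3]

lemma indep_PP1 (c : ℕ) : IndepAt 0 (c + m * r) (fun n => |pairStat c m (PP1 r) n|) := by
  intro n n' _ h2
  rw [zero_add] at h2
  simp only
  congr 1
  unfold pairStat
  apply Finset.sum_congr rfl
  intro x hx
  rw [PP1, Finset.mem_filter] at hx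
  have h3 := mem_PP hx.1
  rw [blk_high (by omega) h2, blk_high hx.2 h2]

lemma indep_PP2 (c : ℕ) : IndepAt (c + m * r) (m * r) (fun n => |pairStat c m (PP2 r) n|) := by
  intro n n' h1 h2
  simp only
  congr 1
  unfold pairStat
  apply Finset.sum_congr rfl
  intro x hx
  rw [PP2, Finset.mem_filter] at hx
  have h3 := mem_PP hx.1
  have h4 : c + m * r + m * r = c + m * (2 * r) := by ring
  rw [h4] at h2
  rw [blk_high h3.1 h2, blk_low (by omega) h1]

lemma sum_abs_aux {c L : ℕ} (hr : 1 ≤ r) (hm : 1 ≤ m) (hL : c + m * (3 * r) ≤ L)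
    (P : Finset (ℕ × ℕ)) (hP : P ⊆ PP r) {e m' : ℕ} (hm' : m * r ≤ m') (hL' : e + m' + 1 < L)
    (hind : IndepAt e m' (fun n => |pairStat c m P n|)) :
    ∑ p ∈ primesL L, |pairStat c m P p| ≤ 75 * 10 ^ L / (m * √(10 ^ m)) := by
  have hmr : 1 ≤ m * r := Nat.mul_pos hm hr
  have h1 := sum_primesL_le (hmr.trans hm') hL' _ (fun n => abs_nonneg (pairStat c m P n)) hind
  have hblk : ∀ t, t < 3 * r → c + m * t + m ≤ L := by
    intro t ht
    have : m * (t + 1) ≤ m * (3 * r) := Nat.mul_le_mul_left m ht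
    rw [Nat.mul_succ] at this
    omega
  have h2 := sum_abs_pairStat_le (c := c) (m := m) (L := L) P
    (fun x hx => (mem_PP (hP hx)).2.2.2)
    (fun x hx => hblk _ (mem_PP (hP hx)).2.1)
    (fun x hx => hblk _ (mem_PP (hP hx)).2.2.1)
  have hcard : (P.card : ℝ) ≤ 3 * (r : ℝ) ^ 2 := by
    have h3 := (Finset.card_le_card hP).trans (card_PP_le r)
    have h4 : (P.card : ℝ) ≤ ((r * (3 * r) : ℕ) : ℝ) := by exact_mod_cast h3
    push_cast at h4
    linarith
  have hrR : (1 : ℝ) ≤ r := by exact_mod_cast hr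
  have hmR : (1 : ℝ) ≤ m := by exact_mod_cast hm
  have hsqrt : √(2 * P.card / 10 ^ m) ≤ 2.5 * r / √(10 ^ m) := by
    rw [Real.sqrt_le_left (by positivity), div_pow, Real.sq_sqrt (by positivity)]
    apply div_le_div_of_nonneg_right _ (by positivity)
    nlinarith
  have h30 : (30 : ℝ) / m' ≤ 30 / (m * r) := by
    apply div_le_div_of_nonneg_left (by norm_num) (by positivity)
    exact_mod_cast hm'
  calc ∑ p ∈ primesL L, |pairStat c m P p|
      ≤ 30 / m' * ∑ n ∈ range (10 ^ L), |pairStat c m P n| := h1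
    _ ≤ 30 / (m * r) * (10 ^ L * (2.5 * r / √(10 ^ m))) := by
        apply mul_le_mul h30 _ (Finset.sum_nonneg (fun _ _ => abs_nonneg _)) (by positivity)
        refine h2.trans ?_
        gcongr
    _ = 75 * 10 ^ L / (m * √(10 ^ m)) := by
        field_simp
        norm_num

lemma main_ineq (hd : IsConcat d) (hm : 1 ≤ m) (hr : 1 ≤ r) {E : ℝ} (hE0 : 0 ≤ E)
    (hL10 : 11 ≤ m * (3 * r + 1))
    (hE : ∀ w < 10 ^ m, ∀ n, n ≤ Nat.primeCounting' (10 ^ (m * (3 * r + 1))) →
      |(cnt d m w (QQ m n) : ℝ) - (QQ m n : ℝ) / 10 ^ m| ≤ E) :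
    (10 : ℝ) ^ (m * (3 * r + 1)) / (40 * m) * (1 - 2 / 10 ^ m) ≤
      150 * 10 ^ (m * (3 * r + 1)) / (m * √(10 ^ m)) + r * 10 ^ (m * (r + 1)) * (2 * E) := by
  set L := m * (3 * r + 1) with hLdef
  set c := off m r with hc
  have hcm : c < m := Nat.mod_lt _ (by omega)
  have h1 := sum_pairStat_le hd hm hr hE0 hE
  rw [← hLdef, ← hc] at h1
  have hL3 : L = m * (3 * r) + m := by rw [hLdef]; ring
  have hmr : 1 ≤ m * r := Nat.mul_pos hm hr
  have hmr3 : m * (3 * r) = m * r + m * r + m * r := by ring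
  have hP1 := sum_abs_aux (c := c) (L := L) hr hm (by omega) (PP1 r) (Finset.filter_subset _ _)
    (e := 0) (m' := c + m * r) (by omega) (by omega) (indep_PP1 c)
  have hP2 := sum_abs_aux (c := c) (L := L) hr hm (by omega) (PP2 r) (Finset.filter_subset _ _)
    (e := c + m * r) (m' := m * r) (by omega) (by omega) (indep_PP2 c)
  have hsplit : ∑ p ∈ primesL L, pairStat c m (PP r) p =
      ∑ p ∈ primesL L, pairStat c m (PP1 r) p + ∑ p ∈ primesL L, pairStat c m (PP2 r) p := by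
    rw [← Finset.sum_add_distrib]
    apply Finset.sum_congr rfl
    intro p _
    unfold pairStat PP1 PP2
    exact (Finset.sum_filter_add_sum_filter_not (PP r) (fun x => r ≤ x.2) _).symm
  have h2 : - (75 * 10 ^ L / (m * √(10 ^ m))) ≤ ∑ p ∈ primesL L, pairStat c m (PP1 r) p := by
    refine (neg_le_neg hP1).trans ?_
    rw [← Finset.sum_neg_distrib]
    apply Finset.sum_le_sum
    intro p _
    exact neg_abs_le _
  have h3 : - (75 * 10 ^ L / (m * √(10 ^ m))) ≤ ∑ p ∈ primesL L, pairStat c m (PP2 r) p := by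
    refine (neg_le_neg hP2).trans ?_
    rw [← Finset.sum_neg_distrib]
    apply Finset.sum_le_sum
    intro p _
    exact neg_abs_le _
  have h4 := card_primes_digits (ℓ := L - 1) (by omega)
  have h5 : L - 1 + 1 = L := by omega
  rw [h5] at h4
  have h6 : ((L - 1 : ℕ) : ℝ) + 1 = L := by
    rw [Nat.cast_sub (by omega)]; push_cast; ring
  rw [h6] at h4
  change (10 : ℝ) ^ L / (10 * L) ≤ ((primesL L).card : ℝ) at h4
  have hrR : (1 : ℝ) ≤ r := by exact_mod_cast hr
  have hmR : (1 : ℝ) ≤ m := by exact_mod_cast hm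
  have hLR : (L : ℝ) = m * (3 * r + 1) := by rw [hLdef]; push_cast; ring
  have h7 : (10 : ℝ) ^ L / (40 * m) ≤ r * ((primesL L).card : ℝ) := by
    calc (10 : ℝ) ^ L / (40 * m) ≤ r * (10 ^ L / (10 * L)) := by
          rw [hLR, mul_div_assoc', div_le_div_iff₀ (by positivity) (by positivity)]
          have : (0 : ℝ) < 10 ^ L := by positivity
          have h8 : (10 : ℝ) * (m * (3 * r + 1)) ≤ r * (40 * m) := by nlinarith
          calc (10 : ℝ) ^ L * (10 * (m * (3 * r + 1))) ≤ 10 ^ L * (r * (40 * m)) := by gcongr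
            _ = r * 10 ^ L * (40 * m) := by ring
      _ ≤ _ := by gcongr
  have h8 : (0 : ℝ) ≤ 1 - 2 / 10 ^ m := by
    have : (10 : ℝ) ^ 1 ≤ 10 ^ m := pow_le_pow_right₀ (by norm_num) hm
    rw [pow_one] at this
    rw [sub_nonneg, div_le_one (by positivity)]
    linarith
  have h9 : (10 : ℝ) ^ L / (40 * m) * (1 - 2 / 10 ^ m) ≤
      r * ((primesL L).card : ℝ) * (1 - 2 / 10 ^ m) := mul_le_mul_of_nonneg_right h7 h8
  have h10 : 150 * (10 : ℝ) ^ L / (m * √(10 ^ m)) = 75 * 10 ^ L / (m * √(10 ^ m)) +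
      75 * 10 ^ L / (m * √(10 ^ m)) := by ring
  rw [h10]
  linarith

end

end Pool.Agent.CopelandErdos
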