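import Mathlib

set_option autoImplicit false

/-!
# A crude Selberg type upper bound sieve for arithmetic progressions

The moduli are coprime to ten, so that the progression difference may be a power of ten.
-/

open Finset ArithmeticFunction
open scoped ArithmeticFunction.Moebius ArithmeticFunction.zeta

namespace Pool.Agent.CopelandErdos

/-- Squarefree integers in `[1, R]` coprime to ten. -/
def sieveSet (R : ℕ) : Finset ℕ := (Icc 1 R).filter (fun d => Squarefree d ∧ Nat.Coprime d 10)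

/-- The normalising sum. -/
noncomputable def sieveG (R : ℕ) : ℝ := ∑ l ∈ sieveSet R, (1 : ℝ) / l

/-- Sieve weights. -/
noncomputable def sieveW (R : ℕ) (d : ℕ) : ℝ :=
  (μ d : ℝ) * d * (∑ l ∈ (sieveSet R).filter (fun l => d ∣ l), (1 : ℝ) / l) / sieveG R

lemma mem_sieveSet {R d : ℕ} :
    d ∈ sieveSet R ↔ (1 ≤ d ∧ d ≤ R) ∧ Squarefree d ∧ Nat.Coprime d 10 := by
  simp [sieveSet]

lemma one_mem_sieveSet {R : ℕ} (hR : 1 ≤ R) : 1 ∈ sieveSet R := by
  simp [mem_sieveSet, hR]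

lemma sieveG_pos {R : ℕ} (hR : 1 ≤ R) : 0 < sieveG R := by
  unfold sieveG
  refine Finset.sum_pos (fun l hl => ?_) ⟨1, one_mem_sieveSet hR⟩
  have := (mem_sieveSet.1 hl).1.1
  positivity

lemma dvd_mem_sieveSet {R d l : ℕ} (hl : l ∈ sieveSet R) (hd : d ∣ l) : d ∈ sieveSet R := by
  rw [mem_sieveSet] at hl ⊢
  obtain ⟨⟨h1, h2⟩, h3, h4⟩ := hl
  have hpos : 0 < d := Nat.pos_of_dvd_of_pos hd h1
  exact ⟨⟨hpos, (Nat.le_of_dvd h1 hd).trans h2⟩, h3.squarefree_of_dvd hd,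
    Nat.Coprime.coprime_dvd_left hd h4⟩

lemma sieveW_one {R : ℕ} (hR : 1 ≤ R) : sieveW R 1 = 1 := by
  unfold sieveW
  have h : (sieveSet R).filter (fun l => 1 ∣ l) = sieveSet R := by
    apply Finset.filter_true_of_mem
    intro x _
    exact one_dvd x
  rw [h]
  have := (sieveG_pos hR).ne'
  simp only [isUnit_one, IsUnit.squarefree, moebius_apply_of_squarefree, cardFactors_one, pow_zero,
    Int.cast_one, Nat.cast_one, mul_one, one_mul]
  change sieveG R / sieveG R = 1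
  exact div_self this

lemma abs_sieveW_le {R d : ℕ} (hR : 1 ≤ R) : |sieveW R d| ≤ d := by
  unfold sieveW
  have hG := sieveG_pos hR
  rw [abs_div, abs_mul, abs_mul, abs_of_pos hG, div_le_iff₀ hG]
  have h1 : |(μ d : ℝ)| ≤ 1 := by
    have : |μ d| ≤ 1 := abs_moebius_le_one
    exact_mod_cast this
  have h2 : |∑ l ∈ (sieveSet R).filter (fun l => d ∣ l), (1 : ℝ) / l| ≤ sieveG R := by
    rw [abs_of_nonneg (Finset.sum_nonneg (fun i _ => by positivity))]
    exact Finset.sum_le_sum_of_subset_of_nonneg (Finset.filter_subset _ _)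
      (fun i _ _ => by positivity)
  have h3 : |(d : ℝ)| = d := abs_of_nonneg (by positivity)
  rw [h3]
  calc |(μ d : ℝ)| * d * |∑ l ∈ (sieveSet R).filter (fun l => d ∣ l), (1 : ℝ) / l|
      ≤ 1 * d * sieveG R := by gcongr
    _ = d * sieveG R := by ring

/-- For squarefree `k`, the sum of `μ d` over `l ∣ d ∣ k`. -/
lemma sum_moebius_between {k l : ℕ} (hk : Squarefree k) (hl : l ∣ k) :
    ∑ d ∈ k.divisors.filter (fun d => l ∣ d), (μ d : ℝ) = if k = l then (μ l : ℝ) else 0 := by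
  obtain ⟨k', rfl⟩ := hl
  have hk0 : l * k' ≠ 0 := hk.ne_zero
  have hl0 : l ≠ 0 := left_ne_zero_of_mul hk0
  have hk'0 : k' ≠ 0 := right_ne_zero_of_mul hk0
  have hcop : Nat.Coprime l k' := Nat.coprime_of_squarefree_mul hk
  have himg : (l * k').divisors.filter (fun d => l ∣ d) = k'.divisors.image (fun e => l * e) := by
    ext d
    simp only [Finset.mem_filter, Nat.mem_divisors, Finset.mem_image]
    constructor
    · rintro ⟨⟨h1, _⟩, ⟨e, rfl⟩⟩
      exact ⟨e, ⟨Nat.dvd_of_mul_dvd_mul_left (Nat.pos_of_ne_zero hl0) h1, hk'0⟩, rfl⟩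
    · rintro ⟨e, ⟨h1, _⟩, rfl⟩
      exact ⟨⟨Nat.mul_dvd_mul_left l h1, hk0⟩, Dvd.intro e rfl⟩
  rw [himg, Finset.sum_image (fun x _ y _ h => Nat.eq_of_mul_eq_mul_left (Nat.pos_of_ne_zero hl0) h)]
  have h1 : ∀ e ∈ k'.divisors, (μ (l * e) : ℝ) = (μ l : ℝ) * (μ e : ℝ) := by
    intro e he
    have hc : Nat.Coprime l e := Nat.Coprime.coprime_dvd_right (Nat.dvd_of_mem_divisors he) hcop
    rw [isMultiplicative_moebius.map_mul_of_coprime hc]
    push_cast
    ring
  rw [Finset.sum_congr rfl h1, ← Finset.mul_sum]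
  have h2 : ∑ e ∈ k'.divisors, (μ e : ℝ) = if k' = 1 then 1 else 0 := by
    have h3 : (μ * ζ : ArithmeticFunction ℤ) k' = (1 : ArithmeticFunction ℤ) k' := by
      rw [moebius_mul_coe_zeta]
    rw [coe_mul_zeta_apply, one_apply] at h3
    have h4 := congrArg (fun z : ℤ => (z : ℝ)) h3
    simpa using h4
  rw [h2]
  by_cases h : k' = 1
  · subst h; simp
  · have : l * k' ≠ l := by
      intro h5
      apply h
      have : l * k' = l * 1 := by rw [h5, mul_one]
      exact Nat.eq_of_mul_eq_mul_left (Nat.pos_of_ne_zero hl0) this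
    simp [h, this]

lemma sum_sieveW_div {R l : ℕ} (hl : l ∈ sieveSet R) :
    ∑ d ∈ (sieveSet R).filter (fun d => l ∣ d), sieveW R d / d = (μ l : ℝ) / (l * sieveG R) := by
  have hstep : ∀ d ∈ (sieveSet R).filter (fun d => l ∣ d), sieveW R d / d =
      ∑ k ∈ sieveSet R, (if d ∣ k then (μ d : ℝ) * (1 / k) / sieveG R else 0) := by
    intro d hd
    have hd1 := (mem_sieveSet.1 (Finset.mem_filter.1 hd).1).1.1
    have hd0 : (d : ℝ) ≠ 0 := by positivity
    rw [← Finset.sum_filter, ← Finset.sum_div, ← Finset.mul_sum]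
    unfold sieveW
    field_simp
  rw [Finset.sum_congr rfl hstep, Finset.sum_comm]
  have hk : ∀ k ∈ sieveSet R, (∑ d ∈ (sieveSet R).filter (fun d => l ∣ d),
      (if d ∣ k then (μ d : ℝ) * (1 / k) / sieveG R else 0)) =
      if k = l then (μ l : ℝ) * (1 / l) / sieveG R else 0 := by
    intro k hkS
    have hkS' := mem_sieveSet.1 hkS
    rw [← Finset.sum_filter, Finset.filter_filter]
    by_cases hlk : l ∣ k
    · have hset : (sieveSet R).filter (fun d => l ∣ d ∧ d ∣ k) =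
          k.divisors.filter (fun d => l ∣ d) := by
        ext d
        simp only [Finset.mem_filter, Nat.mem_divisors]
        constructor
        · rintro ⟨h1, h2, h3⟩
          exact ⟨⟨h3, by omega⟩, h2⟩
        · rintro ⟨⟨h1, h2⟩, h3⟩
          exact ⟨dvd_mem_sieveSet hkS h1, h3, h1⟩
      rw [hset]
      have := sum_moebius_between hkS'.2.1 hlk
      rw [← Finset.sum_div, ← Finset.sum_mul, this]
      split_ifs with h
      · rw [h]
      · simp
    · have hset : (sieveSet R).filter (fun d => l ∣ d ∧ d ∣ k) = ∅ := by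
        apply Finset.filter_false_of_mem
        rintro d _ ⟨h1, h2⟩
        exact hlk (h1.trans h2)
      have hne : k ≠ l := by
        rintro rfl
        exact hlk dvd_rfl
      rw [hset]
      simp [hne]
  rw [Finset.sum_congr rfl hk, Finset.sum_ite_eq' (sieveSet R) l, if_pos hl]
  rw [mul_one_div, div_div]

/-- The main term of the sieve. -/
lemma quadForm_le {R : ℕ} (hR : 1 ≤ R) :
    ∑ d₁ ∈ sieveSet R, ∑ d₂ ∈ sieveSet R, sieveW R d₁ * sieveW R d₂ / (Nat.lcm d₁ d₂ : ℝ) ≤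
      1 / sieveG R := by
  have hG := sieveG_pos hR
  have h1 : ∀ d₁ ∈ sieveSet R, ∀ d₂ ∈ sieveSet R,
      sieveW R d₁ * sieveW R d₂ / (Nat.lcm d₁ d₂ : ℝ) =
      ∑ l ∈ sieveSet R, (if l ∣ d₁ then (if l ∣ d₂ then
        (Nat.totient l : ℝ) * (sieveW R d₁ / d₁) * (sieveW R d₂ / d₂) else 0) else 0) := by
    intro d₁ hd₁ d₂ hd₂
    have h1 := (mem_sieveSet.1 hd₁).1.1
    have h2 := (mem_sieveSet.1 hd₂).1.1
    have hd10 : (d₁ : ℝ) ≠ 0 := by positivity
    have hd20 : (d₂ : ℝ) ≠ 0 := by positivity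
    have hlcm : (Nat.lcm d₁ d₂ : ℝ) ≠ 0 := by
      have := Nat.lcm_pos h1 h2
      positivity
    have hgl : (Nat.gcd d₁ d₂ : ℝ) * (Nat.lcm d₁ d₂ : ℝ) = d₁ * d₂ := by
      exact_mod_cast Nat.gcd_mul_lcm d₁ d₂
    have htot : (Nat.gcd d₁ d₂ : ℝ) = ∑ l ∈ sieveSet R, (if l ∣ d₁ then (if l ∣ d₂ then
        (Nat.totient l : ℝ) else 0) else 0) := by
      have h3 := Nat.sum_totient (Nat.gcd d₁ d₂)
      have h4 : (Nat.gcd d₁ d₂).divisors =
          (sieveSet R).filter (fun l => l ∣ d₁ ∧ l ∣ d₂) := by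
        ext l
        simp only [Nat.mem_divisors, Finset.mem_filter]
        constructor
        · rintro ⟨h5, _⟩
          have h6 := h5.trans (Nat.gcd_dvd_left d₁ d₂)
          have h7 := h5.trans (Nat.gcd_dvd_right d₁ d₂)
          exact ⟨dvd_mem_sieveSet hd₁ h6, h6, h7⟩
        · rintro ⟨_, h6, h7⟩
          exact ⟨Nat.dvd_gcd h6 h7, (Nat.gcd_pos_of_pos_left _ h1).ne'⟩
      rw [h4, Finset.sum_filter] at h3
      rw [← h3]
      push_cast
      apply Finset.sum_congr rfl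
      intro l _
      by_cases h8 : l ∣ d₁ <;> by_cases h9 : l ∣ d₂ <;> simp [h8, h9]
    have h5 : sieveW R d₁ * sieveW R d₂ / (Nat.lcm d₁ d₂ : ℝ) =
        (Nat.gcd d₁ d₂ : ℝ) * ((sieveW R d₁ / d₁) * (sieveW R d₂ / d₂)) := by
      rw [div_eq_iff hlcm]
      have : (Nat.gcd d₁ d₂ : ℝ) * ((sieveW R d₁ / d₁) * (sieveW R d₂ / d₂)) * (Nat.lcm d₁ d₂ : ℝ) =
          ((Nat.gcd d₁ d₂ : ℝ) * (Nat.lcm d₁ d₂ : ℝ)) * ((sieveW R d₁ / d₁) * (sieveW R d₂ / d₂)) := by
        ring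
      rw [this, hgl]
      field_simp
    rw [h5, htot, Finset.sum_mul]
    apply Finset.sum_congr rfl
    intro l _
    by_cases h8 : l ∣ d₁ <;> by_cases h9 : l ∣ d₂ <;> simp [h8, h9, mul_assoc]
  have h2 : ∑ d₁ ∈ sieveSet R, ∑ d₂ ∈ sieveSet R, sieveW R d₁ * sieveW R d₂ / (Nat.lcm d₁ d₂ : ℝ) =
      ∑ l ∈ sieveSet R, (Nat.totient l : ℝ) *
        (∑ d ∈ (sieveSet R).filter (fun d => l ∣ d), sieveW R d / d) ^ 2 := by
    rw [Finset.sum_congr rfl (fun d₁ hd₁ => Finset.sum_congr rfl (fun d₂ hd₂ => h1 d₁ hd₁ d₂ hd₂))]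
    have h3 : ∀ d₁ ∈ sieveSet R, (∑ d₂ ∈ sieveSet R, ∑ l ∈ sieveSet R,
        (if l ∣ d₁ then (if l ∣ d₂ then
        (Nat.totient l : ℝ) * (sieveW R d₁ / d₁) * (sieveW R d₂ / d₂) else 0) else 0)) =
        ∑ l ∈ sieveSet R, ∑ d₂ ∈ sieveSet R, (if l ∣ d₁ then (if l ∣ d₂ then
        (Nat.totient l : ℝ) * (sieveW R d₁ / d₁) * (sieveW R d₂ / d₂) else 0) else 0) :=
      fun d₁ _ => Finset.sum_comm
    rw [Finset.sum_congr rfl h3, Finset.sum_comm]
    apply Finset.sum_congr rfl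
    intro l _
    rw [sq, Finset.sum_filter, Finset.sum_mul_sum, Finset.mul_sum]
    apply Finset.sum_congr rfl
    intro d₁ _
    rw [Finset.mul_sum]
    apply Finset.sum_congr rfl
    intro d₂ _
    by_cases h8 : l ∣ d₁ <;> by_cases h9 : l ∣ d₂ <;> simp [h8, h9, mul_assoc]
  rw [h2]
  have h4 : ∀ l ∈ sieveSet R, (Nat.totient l : ℝ) *
        (∑ d ∈ (sieveSet R).filter (fun d => l ∣ d), sieveW R d / d) ^ 2 ≤
        (1 / l) / (sieveG R) ^ 2 := by
    intro l hl
    rw [sum_sieveW_div hl]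
    have hl' := mem_sieveSet.1 hl
    have hl0 : (0 : ℝ) < l := by exact_mod_cast hl'.1.1
    have hmu : ((μ l : ℝ)) ^ 2 = 1 := by
      have := moebius_sq_eq_one_of_squarefree hl'.2.1
      exact_mod_cast this
    have htot : (Nat.totient l : ℝ) ≤ l := by exact_mod_cast Nat.totient_le l
    rw [div_pow, hmu, mul_pow, mul_one_div, div_div]
    rw [div_le_div_iff₀ (by positivity) (by positivity)]
    have h5 : (0 : ℝ) ≤ l * sieveG R ^ 2 := by positivity
    nlinarith [mul_le_mul_of_nonneg_right htot h5]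
  refine (Finset.sum_le_sum h4).trans ?_
  rw [← Finset.sum_div]
  change sieveG R / sieveG R ^ 2 ≤ 1 / sieveG R
  rw [div_le_div_iff₀ (by positivity) hG]
  nlinarith

end Pool.Agent.CopelandErdos
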