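import Pool.Agent.CopelandErdos.Sieve

set_option autoImplicit false

open Finset ArithmeticFunction
open scoped ArithmeticFunction.Moebius ArithmeticFunction.zeta

namespace Pool.Agent.CopelandErdos

/-- Count of `k < K` with `D ∣ a + q k`. -/
lemma abs_count_dvd_sub_le {a q D K : ℕ} (hD : 0 < D) (hq : Nat.Coprime q D) :
    |(((range K).filter (fun k => D ∣ a + q * k)).card : ℝ) - (K : ℝ) / D| ≤ 1 := by
  have : NeZero D := ⟨hD.ne'⟩
  have hu : IsUnit ((q : ℕ) : ZMod D) := (ZMod.isUnit_iff_coprime q D).2 hq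
  obtain ⟨u, hu⟩ := hu
  set k₀ : ℕ := ((-(a : ZMod D)) * ((u⁻¹ : (ZMod D)ˣ) : ZMod D)).val with hk₀
  have hiff : ∀ k : ℕ, D ∣ a + q * k ↔ k ≡ k₀ [MOD D] := by
    intro k
    rw [← ZMod.natCast_eq_natCast_iff, ← ZMod.natCast_eq_zero_iff, hk₀, ZMod.natCast_zmod_val]
    push_cast
    rw [← hu]
    constructor
    · intro h
      have h1 : (u : ZMod D) * k = -(a : ZMod D) := by
        rw [eq_neg_iff_add_eq_zero, add_comm]; exact h
      rw [← h1, mul_comm (u : ZMod D) (k : ZMod D), mul_assoc, Units.mul_inv, mul_one]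
    · intro h
      rw [h, mul_comm (u : ZMod D), mul_assoc, Units.inv_mul, mul_one, add_neg_cancel]
  have hcard : ((range K).filter (fun k => D ∣ a + q * k)).card = K.count (· ≡ k₀ [MOD D]) := by
    rw [Nat.count_eq_card_filter_range]
    congr 1
    apply Finset.filter_congr
    intro k _
    exact hiff k
  rw [hcard, Nat.count_modEq_card _ hD]
  have hdiv : (K : ℝ) / D = ((K / D : ℕ) : ℝ) + ((K % D : ℕ) : ℝ) / D := by
    have hD' : (D : ℝ) ≠ 0 := by positivity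
    field_simp
    have := Nat.div_add_mod K D
    have h2 : ((D * (K / D) + K % D : ℕ) : ℝ) = K := by rw [this]
    push_cast at h2
    linarith
  rw [hdiv]
  have h1 : (0 : ℝ) ≤ ((K % D : ℕ) : ℝ) / D := by positivity
  have h2 : ((K % D : ℕ) : ℝ) / D ≤ 1 := by
    rw [div_le_one (by positivity)]
    exact_mod_cast (Nat.mod_lt K hD).le
  rw [abs_le]
  split_ifs <;> push_cast <;> constructor <;> linarith

/-- The sieve upper bound. -/
lemma sieve_upper {R K a q : ℕ} (hR : 1 ≤ R) (hq : ∀ d ∈ sieveSet R, Nat.Coprime q d) :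
    (((range K).filter (fun k => ∀ d ∈ sieveSet R, d ∣ a + q * k → d = 1)).card : ℝ) ≤
      K / sieveG R + (R : ℝ) ^ 4 := by
  have h1 : (((range K).filter (fun k => ∀ d ∈ sieveSet R, d ∣ a + q * k → d = 1)).card : ℝ) ≤
      ∑ k ∈ range K, (∑ d ∈ (sieveSet R).filter (fun d => d ∣ a + q * k), sieveW R d) ^ 2 := by
    rw [Finset.card_eq_sum_ones, Finset.sum_filter]
    push_cast
    apply Finset.sum_le_sum
    intro k _
    split_ifs with h
    · have hset : (sieveSet R).filter (fun d => d ∣ a + q * k) = {1} := by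
        ext d
        simp only [Finset.mem_filter, Finset.mem_singleton]
        constructor
        · rintro ⟨h2, h3⟩
          exact h d h2 h3
        · rintro rfl
          exact ⟨one_mem_sieveSet hR, one_dvd _⟩
      rw [hset, Finset.sum_singleton, sieveW_one hR]
      norm_num
    · positivity
  have h2 : ∑ k ∈ range K, (∑ d ∈ (sieveSet R).filter (fun d => d ∣ a + q * k), sieveW R d) ^ 2 =
      ∑ d₁ ∈ sieveSet R, ∑ d₂ ∈ sieveSet R, sieveW R d₁ * sieveW R d₂ *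
        (((range K).filter (fun k => Nat.lcm d₁ d₂ ∣ a + q * k)).card : ℝ) := by
    have h3 : ∀ k ∈ range K,
        (∑ d ∈ (sieveSet R).filter (fun d => d ∣ a + q * k), sieveW R d) ^ 2 =
        ∑ d₁ ∈ sieveSet R, ∑ d₂ ∈ sieveSet R, (if Nat.lcm d₁ d₂ ∣ a + q * k then
          sieveW R d₁ * sieveW R d₂ else 0) := by
      intro k _
      rw [sq, Finset.sum_filter, Finset.sum_mul_sum]
      apply Finset.sum_congr rfl
      intro d₁ _
      apply Finset.sum_congr rfl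
      intro d₂ _
      have hl : (Nat.lcm d₁ d₂ ∣ a + q * k) ↔ (d₁ ∣ a + q * k ∧ d₂ ∣ a + q * k) :=
        Nat.lcm_dvd_iff
      by_cases h8 : d₁ ∣ a + q * k <;> by_cases h9 : d₂ ∣ a + q * k <;> simp [h8, h9, hl]
    rw [Finset.sum_congr rfl h3, Finset.sum_comm]
    apply Finset.sum_congr rfl
    intro d₁ _
    rw [Finset.sum_comm]
    apply Finset.sum_congr rfl
    intro d₂ _
    rw [← Finset.sum_filter, Finset.sum_const, nsmul_eq_mul, mul_comm]
  have h4 : ∀ d₁ ∈ sieveSet R, ∀ d₂ ∈ sieveSet R, sieveW R d₁ * sieveW R d₂ *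
        (((range K).filter (fun k => Nat.lcm d₁ d₂ ∣ a + q * k)).card : ℝ) ≤
        K * (sieveW R d₁ * sieveW R d₂ / (Nat.lcm d₁ d₂ : ℝ)) + (d₁ : ℝ) * d₂ := by
    intro d₁ hd₁ d₂ hd₂
    have hp1 := (mem_sieveSet.1 hd₁).1.1
    have hp2 := (mem_sieveSet.1 hd₂).1.1
    have hcop : Nat.Coprime q (Nat.lcm d₁ d₂) :=
      Nat.Coprime.coprime_dvd_right (Nat.lcm_dvd_mul d₁ d₂)
        (Nat.Coprime.mul_right (hq d₁ hd₁) (hq d₂ hd₂))
    have hc := abs_count_dvd_sub_le (a := a) (K := K) (Nat.lcm_pos hp1 hp2) hcop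
    have hw : |sieveW R d₁ * sieveW R d₂| ≤ (d₁ : ℝ) * d₂ := by
      rw [abs_mul]
      exact mul_le_mul (abs_sieveW_le hR) (abs_sieveW_le hR) (abs_nonneg _) (by positivity)
    set N : ℝ := (((range K).filter (fun k => Nat.lcm d₁ d₂ ∣ a + q * k)).card : ℝ)
    have h5 : sieveW R d₁ * sieveW R d₂ * N =
        K * (sieveW R d₁ * sieveW R d₂ / (Nat.lcm d₁ d₂ : ℝ)) +
        sieveW R d₁ * sieveW R d₂ * (N - K / (Nat.lcm d₁ d₂ : ℝ)) := by ring
    rw [h5]
    have h6 : sieveW R d₁ * sieveW R d₂ * (N - K / (Nat.lcm d₁ d₂ : ℝ)) ≤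
        |sieveW R d₁ * sieveW R d₂| * |N - K / (Nat.lcm d₁ d₂ : ℝ)| := by
      rw [← abs_mul]; exact le_abs_self _
    have h7 : |sieveW R d₁ * sieveW R d₂| * |N - K / (Nat.lcm d₁ d₂ : ℝ)| ≤ (d₁ * d₂) * 1 :=
      mul_le_mul hw hc (abs_nonneg _) (by positivity)
    linarith
  have h5 : ∑ d ∈ sieveSet R, (d : ℝ) ≤ (R : ℝ) ^ 2 := by
    calc ∑ d ∈ sieveSet R, (d : ℝ) ≤ ∑ d ∈ sieveSet R, (R : ℝ) := by
          apply Finset.sum_le_sum
          intro d hd
          exact_mod_cast (mem_sieveSet.1 hd).1.2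
      _ = (sieveSet R).card * R := by rw [Finset.sum_const, nsmul_eq_mul]
      _ ≤ R * R := by
          gcongr
          calc (sieveSet R).card ≤ (Icc 1 R).card := Finset.card_filter_le _ _
            _ = R := by simp
      _ = (R : ℝ) ^ 2 := by ring
  calc (((range K).filter (fun k => ∀ d ∈ sieveSet R, d ∣ a + q * k → d = 1)).card : ℝ)
      ≤ ∑ d₁ ∈ sieveSet R, ∑ d₂ ∈ sieveSet R, sieveW R d₁ * sieveW R d₂ *
        (((range K).filter (fun k => Nat.lcm d₁ d₂ ∣ a + q * k)).card : ℝ) := by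
        rw [← h2]; exact h1
    _ ≤ ∑ d₁ ∈ sieveSet R, ∑ d₂ ∈ sieveSet R,
        (K * (sieveW R d₁ * sieveW R d₂ / (Nat.lcm d₁ d₂ : ℝ)) + (d₁ : ℝ) * d₂) :=
        Finset.sum_le_sum (fun d₁ hd₁ => Finset.sum_le_sum (fun d₂ hd₂ => h4 d₁ hd₁ d₂ hd₂))
    _ = K * (∑ d₁ ∈ sieveSet R, ∑ d₂ ∈ sieveSet R,
        sieveW R d₁ * sieveW R d₂ / (Nat.lcm d₁ d₂ : ℝ)) + (∑ d ∈ sieveSet R, (d : ℝ)) ^ 2 := by
        simp_rw [Finset.sum_add_distrib]
        congr 1
        · rw [Finset.mul_sum]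
          apply Finset.sum_congr rfl
          intro d₁ _
          rw [Finset.mul_sum]
        · rw [sq, Finset.sum_mul_sum]
    _ ≤ K * (1 / sieveG R) + ((R : ℝ) ^ 2) ^ 2 := by
        have := quadForm_le hR
        gcongr
    _ = K / sieveG R + (R : ℝ) ^ 4 := by ring

/-- Lower bound for the normalising sum. -/
lemma sieveG_lower {R : ℕ} (hR : 1 ≤ R) : Real.log R / 4 ≤ sieveG R := by
  -- decompose n = s^2 * l, l = e * l'
  have hdec : ∀ n ∈ Icc 1 R, ∃ x : ℕ × ℕ × ℕ, x ∈ (({1, 2, 5, 10} : Finset ℕ) ×ˢ sieveSet R ×ˢ Icc 1 R) ∧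
      n = x.1 * x.2.1 * x.2.2 ^ 2 := by
    intro n hn
    rw [Finset.mem_Icc] at hn
    obtain ⟨l, s, hls, hl⟩ := Nat.sq_mul_squarefree n
    have hn0 : n ≠ 0 := by omega
    have hs0 : s ≠ 0 := by
      rintro rfl
      simp at hls
      omega
    have hl0 : l ≠ 0 := hl.ne_zero
    have hs_le : s ≤ R := by
      calc s ≤ s ^ 2 := Nat.le_self_pow (by norm_num) s
        _ ≤ s ^ 2 * l := Nat.le_mul_of_pos_right _ (Nat.pos_of_ne_zero hl0)
        _ ≤ R := by rw [hls]; exact hn.2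
    have hl_le : l ≤ R := by
      calc l ≤ s ^ 2 * l := Nat.le_mul_of_pos_left _ (by positivity)
        _ ≤ R := by rw [hls]; exact hn.2
    obtain ⟨l', hl'⟩ := Nat.gcd_dvd_left l 10
    have he : Nat.gcd l 10 ∣ 10 := Nat.gcd_dvd_right l 10
    have hl'0 : l' ≠ 0 := by
      rintro rfl
      simp at hl'
      exact hl0 hl'
    have hsq : Squarefree (Nat.gcd l 10 * l') := by rw [← hl']; exact hl
    have hcop1 : Nat.Coprime (Nat.gcd l 10) l' := Nat.coprime_of_squarefree_mul hsq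
    have hcop : Nat.Coprime l' 10 := by
      have h1 : Nat.gcd l' 10 ∣ Nat.gcd l 10 := by
        apply Nat.dvd_gcd
        · exact (Nat.gcd_dvd_left l' 10).trans (Dvd.intro_left _ hl'.symm)
        · exact Nat.gcd_dvd_right l' 10
      have h2 : Nat.gcd l' 10 ∣ Nat.gcd (Nat.gcd l 10) l' := Nat.dvd_gcd h1 (Nat.gcd_dvd_left l' 10)
      rw [hcop1] at h2
      exact Nat.dvd_one.1 h2
    have hl'sq : Squarefree l' := hl.squarefree_of_dvd (Dvd.intro_left _ hl'.symm)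
    have hl'_le : l' ≤ R := (Nat.le_of_dvd (Nat.pos_of_ne_zero hl0) (Dvd.intro_left _ hl'.symm)).trans hl_le
    refine ⟨(Nat.gcd l 10, l', s), ?_, ?_⟩
    · rw [Finset.mem_product, Finset.mem_product]
      refine ⟨?_, ?_, ?_⟩
      · have h3 : Nat.gcd l 10 ∈ Nat.divisors 10 := by
          rw [Nat.mem_divisors]; exact ⟨he, by norm_num⟩
        have h4 : Nat.divisors 10 = {1, 2, 5, 10} := by decide
        rw [h4] at h3
        exact h3
      · rw [mem_sieveSet]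
        exact ⟨⟨Nat.pos_of_ne_zero hl'0, hl'_le⟩, hl'sq, hcop⟩
      · rw [Finset.mem_Icc]
        exact ⟨Nat.pos_of_ne_zero hs0, hs_le⟩
    · show n = Nat.gcd l 10 * l' * s ^ 2
      rw [← hl', ← hls]
      ring
  choose! f hf1 hf2 using hdec
  have hinj : Set.InjOn f (Icc 1 R : Finset ℕ) := by
    intro x hx y hy hxy
    rw [hf2 x hx, hf2 y hy, hxy]
  have h1 : ∑ n ∈ Icc 1 R, (1 : ℝ) / n ≤
      ∑ x ∈ (({1, 2, 5, 10} : Finset ℕ) ×ˢ sieveSet R ×ˢ Icc 1 R),
        (1 : ℝ) / x.1 * ((1 : ℝ) / x.2.1 * ((x.2.2 : ℝ) ^ 2)⁻¹) := by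
    have h2 : ∑ n ∈ Icc 1 R, (1 : ℝ) / n = ∑ x ∈ (Icc 1 R).image f,
        (1 : ℝ) / x.1 * ((1 : ℝ) / x.2.1 * ((x.2.2 : ℝ) ^ 2)⁻¹) := by
      rw [Finset.sum_image hinj]
      apply Finset.sum_congr rfl
      intro n hn
      have h3 : (n : ℝ) = (f n).1 * (f n).2.1 * (f n).2.2 ^ 2 := by
        exact_mod_cast hf2 n hn
      rw [h3]
      rw [one_div, one_div, one_div, mul_inv, mul_inv, mul_assoc]
    rw [h2]
    apply Finset.sum_le_sum_of_subset_of_nonneg
    · intro x hx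
      rw [Finset.mem_image] at hx
      obtain ⟨n, hn, rfl⟩ := hx
      exact hf1 n hn
    · intro x _ _
      positivity
  rw [Finset.sum_product] at h1
  simp_rw [Finset.sum_product, ← Finset.mul_sum] at h1
  have h3 : ∑ i ∈ Icc 1 R, ((i : ℝ) ^ 2)⁻¹ ≤ 2 := by
    have h4 := sum_Ioo_inv_sq_le (α := ℝ) 0 (R + 1)
    have h5 : Ioo 0 (R + 1) = Icc 1 R := by
      ext x; simp only [Finset.mem_Ioo, Finset.mem_Icc]; omega
    rw [h5] at h4
    simpa using h4
  have h6 : Real.log R ≤ ∑ n ∈ Icc 1 R, (1 : ℝ) / n := by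
    have h7 := log_add_one_le_harmonic R
    rw [harmonic_eq_sum_Icc] at h7
    push_cast at h7
    have h8 : Real.log R ≤ Real.log (R + 1) := by
      apply Real.log_le_log (by exact_mod_cast hR)
      linarith
    calc Real.log R ≤ Real.log (R + 1) := h8
      _ ≤ ∑ n ∈ Icc 1 R, ((n : ℝ))⁻¹ := h7
      _ = ∑ n ∈ Icc 1 R, (1 : ℝ) / n := by simp [one_div]
  have hsum4 : ∑ e ∈ ({1, 2, 5, 10} : Finset ℕ), (1 : ℝ) / e ≤ 2 := by
    rw [Finset.sum_insert (by decide), Finset.sum_insert (by decide), Finset.sum_insert (by decide),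
      Finset.sum_singleton]
    norm_num
  have hG : 0 < sieveG R := sieveG_pos hR
  have h9 : ∑ n ∈ Icc 1 R, (1 : ℝ) / n ≤ 2 * (sieveG R * 2) := by
    refine h1.trans ?_
    rw [← Finset.sum_mul, ← Finset.sum_mul]
    change (∑ e ∈ ({1, 2, 5, 10} : Finset ℕ), (1 : ℝ) / e) * (sieveG R * _) ≤ _
    gcongr
  linarith

end Pool.Agent.CopelandErdos
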