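import Pool.Agent.CopelandErdos.Windows

set_option autoImplicit false

open Finset

namespace Pool.Agent.CopelandErdos

section

variable {d : ℕ → ℕ} {m r : ℕ}

/-- Number of full blocks of `p` with value `w`. -/
noncomputable def nblk (m r w p : ℕ) : ℕ :=
  ((range (3 * r)).filter (fun t => blk (off m r) m t p = w)).card

lemma telescoping (hd : IsConcat d) (hm : 1 ≤ m) (w : ℕ) {a : ℕ}
    (h1 : Nat.primeCounting' (10 ^ (m * (3 * r + 1) - 1)) ≤ a) (b : ℕ) (hab : a ≤ b) :
    b ≤ Nat.primeCounting' (10 ^ (m * (3 * r + 1))) →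
    cnt d m w (QQ m a) + ∑ n ∈ Ico a b, nblk m r w (Nat.nth Nat.Prime n) ≤ cnt d m w (QQ m b) ∧
    QQ m b = QQ m a + (b - a) * (3 * r + 1) := by
  induction b, hab using Nat.le_induction with
  | base => intro _; simp
  | succ b hab ih =>
    intro h2
    obtain ⟨ih1, ih2⟩ := ih (by omega)
    have h3 := cnt_one_prime hd hm w (h1.trans hab) (by omega : b < _)
    have h4 := QQ_succ (r := r) hm (h1.trans hab) (by omega : b < _)
    rw [Finset.sum_Ico_succ_top hab]
    constructor
    · unfold nblk at ih1 ⊢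
      omega
    · rw [h4, ih2]
      have h5 : b + 1 - a = (b - a) + 1 := by omega
      rw [h5]
      ring

lemma window_bound (hd : IsConcat d) (hm : 1 ≤ m) {w a b : ℕ} {E : ℝ}
    (hE : ∀ n, n ≤ Nat.primeCounting' (10 ^ (m * (3 * r + 1))) →
      |(cnt d m w (QQ m n) : ℝ) - (QQ m n : ℝ) / 10 ^ m| ≤ E)
    (ha : 10 ^ (m * (3 * r + 1) - 1) ≤ a) (hab : a ≤ b) (hb : b ≤ 10 ^ (m * (3 * r + 1))) :
    (∑ p ∈ (Ico a b).filter Nat.Prime, (nblk m r w p : ℝ)) ≤
      ((Ico a b).filter Nat.Prime).card * (3 * r + 1) / 10 ^ m + 2 * E := by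
  have h1 : Nat.primeCounting' (10 ^ (m * (3 * r + 1) - 1)) ≤ Nat.primeCounting' a :=
    Nat.monotone_primeCounting' ha
  have h2 : Nat.primeCounting' a ≤ Nat.primeCounting' b := Nat.monotone_primeCounting' hab
  have h3 : Nat.primeCounting' b ≤ Nat.primeCounting' (10 ^ (m * (3 * r + 1))) :=
    Nat.monotone_primeCounting' hb
  obtain ⟨h4, h5⟩ := telescoping hd hm w h1 _ h2 h3
  rw [sum_nth_eq (nblk m r w) a b hab] at h4
  have h6 : ((cnt d m w (QQ m (Nat.primeCounting' a)) : ℝ) +
      ∑ p ∈ (Ico a b).filter Nat.Prime, (nblk m r w p : ℝ)) ≤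
      cnt d m w (QQ m (Nat.primeCounting' b)) := by exact_mod_cast h4
  have h7 := hE _ h3
  have h8 := hE _ (h2.trans h3)
  rw [abs_le] at h7 h8
  have h9 := card_primes_Ico hab
  have h10 : ((Ico a b).filter Nat.Prime).card = Nat.primeCounting' b - Nat.primeCounting' a := by
    omega
  rw [← h10] at h5
  have h11 : (QQ m (Nat.primeCounting' b) : ℝ) = QQ m (Nat.primeCounting' a) +
      ((Ico a b).filter Nat.Prime).card * (3 * r + 1) := by
    rw [h5]; push_cast; ring
  rw [h11] at h7
  rw [add_div] at h7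
  linarith [h7.2, h8.1]

/-- The set of pairs of block positions. -/
def PP (r : ℕ) : Finset (ℕ × ℕ) := ((Ico (2 * r) (3 * r)) ×ˢ (range (3 * r))).filter (fun x => x.1 ≠ x.2)

lemma pairStat_eq (p : ℕ) : pairStat (off m r) m (PP r) p =
    ∑ i ∈ Ico (2 * r) (3 * r), ((nblk m r (blk (off m r) m i p) p : ℝ) - 1 - (3 * r - 1) / 10 ^ m) := by
  unfold pairStat PP
  rw [Finset.sum_filter, Finset.sum_product]
  apply Finset.sum_congr rfl
  intro i hi
  rw [Finset.mem_Ico] at hi
  have hi' : i ∈ range (3 * r) := Finset.mem_range.2 hi.2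
  simp only
  rw [← Finset.add_sum_erase _ _ hi']
  simp only [ne_eq, not_true_eq_false, if_false, zero_add]
  have h1 : ∀ t ∈ (range (3 * r)).erase i, (if ¬i = t then
      ker (10 ^ m) (blk (off m r) m i p) (blk (off m r) m t p) else 0) =
      (if blk (off m r) m t p = blk (off m r) m i p then (1 : ℝ) else 0) - 1 / 10 ^ m := by
    intro t ht
    have hne : ¬ i = t := fun h => (Finset.ne_of_mem_erase ht) h.symm
    rw [if_pos hne, ker_comm]
    unfold ker
    push_cast
    rfl
  rw [Finset.sum_congr rfl h1, Finset.sum_sub_distrib, Finset.sum_const, Finset.card_erase_of_mem hi',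
    Finset.card_range, nsmul_eq_mul]
  have h2 : (nblk m r (blk (off m r) m i p) p : ℝ) =
      1 + ∑ t ∈ (range (3 * r)).erase i,
        (if blk (off m r) m t p = blk (off m r) m i p then (1 : ℝ) else 0) := by
    unfold nblk
    rw [Finset.card_eq_sum_ones, Finset.sum_filter]
    push_cast
    rw [← Finset.add_sum_erase _ _ hi']
    simp
  rw [h2]
  have h3 : ((3 * r - 1 : ℕ) : ℝ) = 3 * r - 1 := by
    rw [Nat.cast_sub (by omega)]; push_cast; ring
  rw [h3]
  ring

lemma blk_top {c p i : ℕ} (hi : 2 * r ≤ i) :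
    blk c m i p = p / 10 ^ (c + m * (2 * r)) / 10 ^ (m * (i - 2 * r)) % 10 ^ m := by
  unfold blk
  rw [Nat.div_div_eq_div_mul, ← pow_add]
  congr 3
  have h : i = 2 * r + (i - 2 * r) := by omega
  rw [add_assoc, ← Nat.mul_add, ← h]

lemma sum_pairStat_le (hd : IsConcat d) (hm : 1 ≤ m) (hr : 1 ≤ r) {E : ℝ} (hE0 : 0 ≤ E)
    (hE : ∀ w < 10 ^ m, ∀ n, n ≤ Nat.primeCounting' (10 ^ (m * (3 * r + 1))) →
      |(cnt d m w (QQ m n) : ℝ) - (QQ m n : ℝ) / 10 ^ m| ≤ E) :
    ∑ p ∈ primesL (m * (3 * r + 1)), pairStat (off m r) m (PP r) p ≤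
      - (r * (primesL (m * (3 * r + 1))).card * (1 - 2 / 10 ^ m)) +
        r * 10 ^ (m * (r + 1)) * (2 * E) := by
  set L := m * (3 * r + 1) with hL
  set c := off m r with hc
  have hcm : c < m := Nat.mod_lt _ (by omega)
  set s := c + m * (2 * r) with hs
  have hLs : L - s ≤ m * (r + 1) := by
    have : L = m * (2 * r) + m * (r + 1) := by rw [hL]; ring
    omega
  have hsL : s + 1 ≤ L := by
    have h1 : L = m * (2 * r) + m * (r + 1) := by rw [hL]; ring
    have h2 : m * 1 ≤ m * (r + 1) := Nat.mul_le_mul_left m (by omega)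
    omega
  -- the map to windows
  have hmaps : ∀ p ∈ primesL L, p / 10 ^ s ∈ range (10 ^ (L - s)) := by
    intro p hp
    rw [Finset.mem_range]
    rw [primesL, Finset.mem_filter, Finset.mem_Ico] at hp
    rw [Nat.div_lt_iff_lt_mul (by positivity), ← pow_add]
    have : L - s + s = L := by omega
    rw [this]
    exact hp.1.2
  have hwin : ∀ A ∈ range (10 ^ (L - s)), ∑ p ∈ (primesL L).filter (fun p => p / 10 ^ s = A),
      (∑ i ∈ Ico (2 * r) (3 * r), (nblk m r (blk c m i p) p : ℝ)) ≤
      r * (((primesL L).filter (fun p => p / 10 ^ s = A)).card * (3 * r + 1) / 10 ^ m + 2 * E) := by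
    intro A hA
    rw [Finset.mem_range] at hA
    have h1 : ∀ p ∈ (primesL L).filter (fun p => p / 10 ^ s = A),
        (∑ i ∈ Ico (2 * r) (3 * r), (nblk m r (blk c m i p) p : ℝ)) =
        ∑ i ∈ Ico (2 * r) (3 * r), (nblk m r (A / 10 ^ (m * (i - 2 * r)) % 10 ^ m) p : ℝ) := by
      intro p hp
      rw [Finset.mem_filter] at hp
      apply Finset.sum_congr rfl
      intro i hi
      rw [Finset.mem_Ico] at hi
      rw [blk_top hi.1, ← hs, hp.2]
    rw [Finset.sum_congr rfl h1, Finset.sum_comm]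
    have h2 : ∀ i ∈ Ico (2 * r) (3 * r), ∑ p ∈ (primesL L).filter (fun p => p / 10 ^ s = A),
        (nblk m r (A / 10 ^ (m * (i - 2 * r)) % 10 ^ m) p : ℝ) ≤
        (((primesL L).filter (fun p => p / 10 ^ s = A)).card * (3 * r + 1) / 10 ^ m + 2 * E) := by
      intro i _
      by_cases hAL : 10 ^ (L - 1 - s) ≤ A
      · have hset : (primesL L).filter (fun p => p / 10 ^ s = A) =
            (Ico (A * 10 ^ s) ((A + 1) * 10 ^ s)).filter Nat.Prime := by
          have e1 : 10 ^ (L - 1) ≤ A * 10 ^ s := by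
            calc 10 ^ (L - 1) = 10 ^ (L - 1 - s) * 10 ^ s := by
                  rw [← pow_add]; congr 1; omega
              _ ≤ A * 10 ^ s := Nat.mul_le_mul_right _ hAL
          have e2 : (A + 1) * 10 ^ s ≤ 10 ^ L := by
            calc (A + 1) * 10 ^ s ≤ 10 ^ (L - s) * 10 ^ s := Nat.mul_le_mul_right _ hA
              _ = 10 ^ L := by rw [← pow_add]; congr 1; omega
          ext p
          simp only [primesL, Finset.mem_filter, Finset.mem_Ico]
          constructor
          · rintro ⟨⟨⟨h3, h4⟩, h5⟩, h6⟩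
            refine ⟨⟨?_, ?_⟩, h5⟩
            · rw [← h6]; exact Nat.div_mul_le_self p _
            · rw [← h6]
              have := Nat.lt_mul_div_succ p (show 0 < 10 ^ s by positivity)
              rw [mul_comm]
              exact this
          · rintro ⟨⟨h3, h4⟩, h5⟩
            refine ⟨⟨⟨e1.trans h3, lt_of_lt_of_le h4 e2⟩, h5⟩, ?_⟩
            apply le_antisymm
            · have : p / 10 ^ s < A + 1 := by
                rw [Nat.div_lt_iff_lt_mul (by positivity)]
                exact h4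
              omega
            · rw [Nat.le_div_iff_mul_le (by positivity)]
              exact h3
        rw [hset]
        apply window_bound hd hm
        · exact hE _ (Nat.mod_lt _ (by positivity))
        · calc 10 ^ (m * (3 * r + 1) - 1) = 10 ^ (L - 1 - s) * 10 ^ s := by
                  rw [← pow_add]; congr 1; omega
              _ ≤ A * 10 ^ s := Nat.mul_le_mul_right _ hAL
        · exact Nat.mul_le_mul_right _ (by omega)
        · calc (A + 1) * 10 ^ s ≤ 10 ^ (L - s) * 10 ^ s := Nat.mul_le_mul_right _ hA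
              _ = 10 ^ (m * (3 * r + 1)) := by rw [← pow_add]; congr 1; omega
      · have hset : (primesL L).filter (fun p => p / 10 ^ s = A) = ∅ := by
          apply Finset.filter_false_of_mem
          intro p hp h3
          rw [primesL, Finset.mem_filter, Finset.mem_Ico] at hp
          apply hAL
          rw [← h3, Nat.le_div_iff_mul_le (by positivity), ← pow_add]
          have : L - 1 - s + s = L - 1 := by omega
          rw [this]
          exact hp.1.1
        rw [hset]
        simp only [Finset.sum_empty, Finset.card_empty, Nat.cast_zero, zero_mul, zero_div, zero_add]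
        linarith
    refine (Finset.sum_le_sum h2).trans ?_
    rw [Finset.sum_const, Nat.card_Ico, nsmul_eq_mul]
    have : 3 * r - 2 * r = r := by omega
    rw [this]
  -- sum over all windows
  have htot : ∑ p ∈ primesL L, (∑ i ∈ Ico (2 * r) (3 * r), (nblk m r (blk c m i p) p : ℝ)) ≤
      r * ((primesL L).card * (3 * r + 1) / 10 ^ m) + r * 10 ^ (m * (r + 1)) * (2 * E) := by
    rw [← Finset.sum_fiberwise_of_maps_to hmaps]
    refine (Finset.sum_le_sum hwin).trans ?_
    rw [← Finset.mul_sum, Finset.sum_add_distrib, Finset.sum_const, Finset.card_range,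
      nsmul_eq_mul, ← Finset.sum_div, ← Finset.sum_mul]
    have h1 : ∑ A ∈ range (10 ^ (L - s)), (((primesL L).filter (fun p => p / 10 ^ s = A)).card : ℝ) =
        (primesL L).card := by
      rw [Finset.card_eq_sum_card_fiberwise hmaps]
      push_cast
      rfl
    rw [h1]
    have h2 : ((10 ^ (L - s) : ℕ) : ℝ) ≤ 10 ^ (m * (r + 1)) := by
      push_cast
      exact pow_le_pow_right₀ (by norm_num) hLs
    have h3 : (0 : ℝ) ≤ r := by positivity
    have h4 : ((10 ^ (L - s) : ℕ) : ℝ) * (2 * E) ≤ 10 ^ (m * (r + 1)) * (2 * E) :=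
      mul_le_mul_of_nonneg_right h2 (by linarith)
    calc (r : ℝ) * ((primesL L).card * (3 * r + 1) / 10 ^ m + ((10 ^ (L - s) : ℕ) : ℝ) * (2 * E))
        ≤ r * ((primesL L).card * (3 * r + 1) / 10 ^ m + 10 ^ (m * (r + 1)) * (2 * E)) := by gcongr
      _ = _ := by ring
  have hpair : ∑ p ∈ primesL L, pairStat c m (PP r) p =
      ∑ p ∈ primesL L, (∑ i ∈ Ico (2 * r) (3 * r), (nblk m r (blk c m i p) p : ℝ)) -
      (primesL L).card * (r * (1 + (3 * r - 1) / 10 ^ m)) := by
    have h1 : ∀ p ∈ primesL L, pairStat c m (PP r) p =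
        (∑ i ∈ Ico (2 * r) (3 * r), (nblk m r (blk c m i p) p : ℝ)) -
          r * (1 + (3 * r - 1) / 10 ^ m) := by
      intro p _
      rw [hc, pairStat_eq]
      have h2 : ∀ i ∈ Ico (2 * r) (3 * r),
          ((nblk m r (blk (off m r) m i p) p : ℝ) - 1 - (3 * r - 1) / 10 ^ m) =
          (nblk m r (blk (off m r) m i p) p : ℝ) - (1 + (3 * r - 1) / 10 ^ m) := by
        intro i _; ring
      rw [Finset.sum_congr rfl h2, Finset.sum_sub_distrib, Finset.sum_const, Nat.card_Ico,
        nsmul_eq_mul]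
      have : 3 * r - 2 * r = r := by omega
      rw [this]
    rw [Finset.sum_congr rfl h1, Finset.sum_sub_distrib, Finset.sum_const, nsmul_eq_mul]
  rw [hpair]
  have h5 : (r : ℝ) * ((primesL L).card * (3 * r + 1) / 10 ^ m) -
      (primesL L).card * (r * (1 + (3 * r - 1) / 10 ^ m)) =
      - (r * (primesL L).card * (1 - 2 / 10 ^ m)) := by ring
  linarith

end

end Pool.Agent.CopelandErdos
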