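import Pool.Agent.CopelandErdos.Digits

set_option autoImplicit false

open Finset

namespace Pool.Agent.CopelandErdos

lemma prime_nth (n : ℕ) : (Nat.nth Nat.Prime n).Prime := Nat.prime_nth_prime n

lemma nth_lt {b n : ℕ} (h : n < Nat.primeCounting' b) : Nat.nth Nat.Prime n < b :=
  Nat.nth_lt_of_lt_count h

lemma le_nth {a n : ℕ} (h : Nat.primeCounting' a ≤ n) : a ≤ Nat.nth Nat.Prime n := by
  by_contra hlt
  push Not at hlt
  have h1 : Nat.primeCounting' (Nat.nth Nat.Prime n + 1) ≤ Nat.primeCounting' a :=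
    Nat.monotone_primeCounting' hlt
  have h2 : Nat.primeCounting' (Nat.nth Nat.Prime n + 1) = n + 1 := by
    have := Nat.primeCounting'_nth_eq n
    unfold Nat.primeCounting' at this ⊢
    rw [Nat.count_succ, this, if_pos (prime_nth n)]
  omega

lemma sum_nth_eq (f : ℕ → ℕ) (a : ℕ) : ∀ b : ℕ, a ≤ b →
    ∑ n ∈ Ico (Nat.primeCounting' a) (Nat.primeCounting' b), f (Nat.nth Nat.Prime n) =
      ∑ p ∈ (Ico a b).filter Nat.Prime, f p := by
  intro b hab
  induction b, hab using Nat.le_induction with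
  | base => simp
  | succ b hab ih =>
    have h1 : Nat.primeCounting' (b + 1) = Nat.primeCounting' b + (if b.Prime then 1 else 0) := by
      unfold Nat.primeCounting'
      rw [Nat.count_succ]
    have h2 : Nat.primeCounting' a ≤ Nat.primeCounting' b := Nat.monotone_primeCounting' hab
    rw [Finset.sum_filter] at ih ⊢
    rw [Finset.sum_Ico_succ_top hab, ← ih, h1]
    split_ifs with hb
    · rw [Finset.sum_Ico_succ_top h2]
      congr 2
      exact Nat.nth_count hb
    · simp

/-- Counting function of a block value among the first `N` aligned blocks. -/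
noncomputable def cnt (d : ℕ → ℕ) (m w N : ℕ) : ℕ :=
  ((range N).filter (fun j => ∑ i ∈ range m, d (j * m + i) * 10 ^ (m - 1 - i) = w)).card

lemma cnt_add {d : ℕ → ℕ} {m w N k : ℕ} : cnt d m w (N + k) = cnt d m w N +
    ((Ico N (N + k)).filter
      (fun j => ∑ i ∈ range m, d (j * m + i) * 10 ^ (m - 1 - i) = w)).card := by
  unfold cnt
  rw [← Finset.card_union_of_disjoint]
  · congr 1
    rw [← Finset.filter_union]
    congr 1
    rw [Finset.range_eq_Ico, Finset.range_eq_Ico, Finset.Ico_union_Ico_eq_Ico (by omega) (by omega)]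
  · apply Finset.disjoint_filter_filter
    rw [Finset.range_eq_Ico]
    exact Finset.Ico_disjoint_Ico_consecutive 0 N (N + k)

lemma len_eq {L n : ℕ} (hL : 1 ≤ L) (h1 : Nat.primeCounting' (10 ^ (L - 1)) ≤ n)
    (h2 : n < Nat.primeCounting' (10 ^ L)) :
    (Nat.digits 10 (Nat.nth Nat.Prime n)).length = L := by
  have h3 := le_nth h1
  have h4 := nth_lt h2
  have h5 := (Nat.digits_length_le_iff (by norm_num : 1 < 10) (Nat.nth Nat.Prime n) (k := L)).2 h4
  have h6 := (Nat.lt_digits_length_iff (by norm_num : 1 < 10) (Nat.nth Nat.Prime n) (k := L - 1)).2 h3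
  omega

section

variable {d : ℕ → ℕ} {m r : ℕ}

/-- Offset of the aligned blocks inside the primes with `m (3 r + 1)` digits. -/
noncomputable def off (m r : ℕ) : ℕ :=
  TT (Nat.primeCounting' (10 ^ (m * (3 * r + 1) - 1))) % m

/-- Block index of the beginning of the `n`-th prime. -/
noncomputable def QQ (m n : ℕ) : ℕ := TT n / m

lemma TT_mod (hm : 1 ≤ m) (n : ℕ)
    (h1 : Nat.primeCounting' (10 ^ (m * (3 * r + 1) - 1)) ≤ n) :
    n ≤ Nat.primeCounting' (10 ^ (m * (3 * r + 1))) → TT n % m = off m r := by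
  induction n, h1 using Nat.le_induction with
  | base => intro _; rfl
  | succ n hn ih =>
    intro h2
    have hL : 1 ≤ m * (3 * r + 1) := Nat.mul_pos hm (by omega)
    rw [TT_succ, len_eq hL hn (by omega), Nat.add_mul_mod_self_left]
    exact ih (by omega)

lemma QQ_succ (hm : 1 ≤ m) {n : ℕ}
    (h1 : Nat.primeCounting' (10 ^ (m * (3 * r + 1) - 1)) ≤ n)
    (h2 : n < Nat.primeCounting' (10 ^ (m * (3 * r + 1)))) :
    QQ m (n + 1) = QQ m n + (3 * r + 1) := by
  have hL : 1 ≤ m * (3 * r + 1) := Nat.mul_pos hm (by omega)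
  unfold QQ
  rw [TT_succ, len_eq hL h1 h2, Nat.add_mul_div_left _ _ (by omega)]

lemma TT_eq (hm : 1 ≤ m) {n : ℕ}
    (h1 : Nat.primeCounting' (10 ^ (m * (3 * r + 1) - 1)) ≤ n)
    (h2 : n ≤ Nat.primeCounting' (10 ^ (m * (3 * r + 1)))) :
    TT n = m * QQ m n + off m r := by
  rw [← TT_mod hm n h1 h2]
  exact (Nat.div_add_mod _ _).symm

/-- The number of full blocks with value `w` inside one prime. -/
lemma cnt_one_prime (hd : IsConcat d) (hm : 1 ≤ m) {n : ℕ} (w : ℕ)
    (h1 : Nat.primeCounting' (10 ^ (m * (3 * r + 1) - 1)) ≤ n)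
    (h2 : n < Nat.primeCounting' (10 ^ (m * (3 * r + 1)))) :
    cnt d m w (QQ m n) +
      ((range (3 * r)).filter (fun t => blk (off m r) m t (Nat.nth Nat.Prime n) = w)).card ≤
      cnt d m w (QQ m (n + 1)) := by
  rw [QQ_succ hm h1 h2, cnt_add]
  apply Nat.add_le_add_left
  have hL : 1 ≤ m * (3 * r + 1) := Nat.mul_pos hm (by omega)
  have hlen := len_eq hL h1 h2
  have hT := TT_eq hm h1 h2.le
  have hoff : off m r < m := Nat.mod_lt _ (by omega)
  apply Finset.card_le_card_of_injOn (fun t => QQ m n + 3 * r - t)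
  · intro t ht
    rw [Finset.mem_coe, Finset.mem_filter, Finset.mem_range] at ht
    rw [Finset.mem_coe, Finset.mem_filter, Finset.mem_Ico]
    dsimp only
    refine ⟨by omega, ?_⟩
    obtain ⟨ht1, ht2⟩ := ht
    rw [← ht2]
    obtain ⟨k, hk⟩ := Nat.exists_eq_add_of_lt ht1
    have hj : (QQ m n + 3 * r - t) * m = TT n + (m * (k + 1) - off m r) := by
      have h3 : QQ m n + 3 * r - t = QQ m n + (k + 1) := by omega
      have h4 : off m r ≤ m * (k + 1) := by nlinarith
      rw [h3, hT]
      have h5 : m * (k + 1) = (m * (k + 1) - off m r) + off m r := by omega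
      have h6 : (QQ m n + (k + 1)) * m = m * QQ m n + m * (k + 1) := by ring
      rw [h6]
      omega
    have hle : (m * (k + 1) - off m r) + m ≤ m * (3 * r + 1) := by
      have h7 : m * (k + 1) + m = m * (k + 2) := by ring
      have h8 : m * (k + 2) ≤ m * (3 * r + 1) := Nat.mul_le_mul_left m (by omega)
      omega
    rw [block_value hd hj (by rw [hlen]; exact hle), hlen]
    unfold blk
    congr 3
    have h9 : m * (3 * r + 1) = m * t + (m * (k + 1) + m) := by
      rw [hk]; ring
    have h10 : off m r ≤ m * (k + 1) := by nlinarith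
    omega
  · intro t ht t' ht' h
    rw [Finset.mem_coe, Finset.mem_filter, Finset.mem_range] at ht ht'
    simp only at h
    omega

end

end Pool.Agent.CopelandErdos
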